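import Mathlib

/-!
# The quadratic character of `-7`
-/

set_option autoImplicit false

namespace Pool.Agent.X99.C49

theorem sqm7r (n : ℕ) (h : n % 7 ≠ 0) :
    IsSquare (n : ZMod 7) ↔ (n % 7 = 1 ∨ n % 7 = 2 ∨ n % 7 = 4) := by
  have e : (n : ZMod 7) = ((n % 7 : ℕ) : ZMod 7) := (ZMod.natCast_mod n 7).symm
  rw [e]
  have h7 : n % 7 < 7 := Nat.mod_lt _ (by norm_num)
  generalize n % 7 = m at *
  interval_cases m
  · exact absurd rfl h
  all_goals revert e; intro _; decide

theorem sq7_iff {p : ℕ} (hp : p.Prime) (h4 : p % 4 = 1) :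
    IsSquare (-7 : ZMod p) ↔ (p % 7 = 1 ∨ p % 7 = 2 ∨ p % 7 = 4) := by
  have hf : Fact p.Prime := ⟨hp⟩
  have h7 : Fact (Nat.Prime 7) := ⟨by norm_num⟩
  have hne : p ≠ 7 := by
    rintro rfl
    norm_num at h4
  have hm1 : IsSquare (-1 : ZMod p) := ZMod.exists_sq_eq_neg_one_iff.2 (by omega)
  have h0 : IsSquare (-7 : ZMod p) ↔ IsSquare (7 : ZMod p) := by
    constructor
    · intro h
      have := hm1.mul h
      simpa using this
    · intro h
      have := hm1.mul h
      simpa using this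
  have h1 : IsSquare (7 : ZMod p) ↔ IsSquare (p : ZMod 7) := by
    have := ZMod.exists_sq_eq_prime_iff_of_mod_four_eq_one (p := p) (q := 7) h4 (by norm_num)
    exact_mod_cast this
  rw [h0, h1]
  refine sqm7r p ?_
  intro h
  exact hne ((Nat.prime_dvd_prime_iff_eq (by norm_num) hp).1 (Nat.dvd_of_mod_eq_zero h)).symm

end Pool.Agent.X99.C49
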