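import Pool.Agent.Y698.SG.Uj
import Pool.Agent.X99.C49.Res

/-!
# The L-values of the twists of `X_0(49)` over the rational numbers
-/

set_option autoImplicit false
set_option linter.unusedSectionVars false

namespace Pool.Agent.X99.C49

open Pool.Agent.Y698 Pool.Agent.Y698.SG

open NumberField IsDedekindDomain WeierstrassCurve Pool.Agent.W189.NF IsCyclotomicExtension.Rat
open Pool.Agent.H921R2.TatePole Pool.Agent.H82R3.EK
open H667R3 Pool.Agent.W192.HK Pool.Agent.TH936.CM Pool.Agent.TH936.PU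
open W165.CE (pw pw_eq pw_luc)

section
variable {r : ℕ} [hr : Fact r.Prime] (M : Type) [Field M] [NumberField M]
  [hM : IsCyclotomicExtension {r} ℚ M] (K : Type) [Field K] [NumberField K] [Algebra K M]

include hM in
open Classical in
/-- the L-function over `K = ℚ` from the Euler product -/
theorem lser (hir : Inq r) (hn : Module.finrank ℚ K = 1) {S : Finset ℕ}
    (hS : ∀ q ∈ S, Gp q) (hrS : r ∉ S) {j : ℕ} (hj : ∏ q ∈ S, q = 1 + 4 * j) {F : ℂ → ℂ}
    (g2 : ∀ z : ℂ, 3 / 2 < z.re → HasProd (fun p : Nat.Primes =>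
      (1 - bc p * ((∏ q ∈ S, qch q (p : ℕ)) * ((p : ℕ) : ℂ) ^ (-z)) +
      ec p * ((∏ q ∈ S, qch q (p : ℕ)) * ((p : ℕ) : ℂ) ^ (-z)) ^ 2)⁻¹) (F z)) :
    ∀ s : ℂ, 2 < s.re → F s = (EX K (j : K)).LSeries s := by
  have hG : IsGalois ℚ K := isGalK r K (M := M)
  have h7 : r ≠ 7 := by
    intro h
    apply hir.not_seven
    rw [h]
    norm_num
  have hcard : Nat.card (XK r M K) = 1 := by rw [card_XK, hn]
  have hfin : Finite (XK r M K) := Nat.finite_of_card_ne_zero (by rw [hcard]; norm_num)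
  let _ : Fintype (XK r M K) := Fintype.ofFinite _
  have hone : ∀ χ : XK r M K, χ = 1 := by
    intro χ
    have h1 : χ ^ Nat.card (XK r M K) = 1 := pow_card_eq_one'
    rw [hcard, pow_one] at h1
    exact h1
  intro s hs
  have hs' : 3 / 2 < s.re := by linarith
  have h1 : HasProd (fun q : Nat.Primes => ∏ χ : XK r M K,
      EF (cc (χ : DirichletCharacter ℂ r) q * ∏ p ∈ S, qch p (q : ℕ)) s q) (F s) := by
    refine (g2 s hs').congr_fun ?_
    intro q
    rw [Finset.prod_eq_single (1 : XK r M K) (fun χ _ h => absurd (hone χ) h)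
      (fun h => absurd (Finset.mem_univ _) h)]
    unfold EF cc
    rw [if_pos (show ((1 : XK r M K) : DirichletCharacter ℂ r) = 1 from rfl), one_mul]
  simp_rw [← prod_placesD M K h7 hS hrS hj s] at h1
  have h2 := (LSeries_hasProd (EX K (j : K)) hs).2
  have h3 := (Equiv.sigmaFiberEquiv (below (K := K))).hasProd_iff.2 h2
  have h4 := h3.sigma (g := fun q : Nat.Primes =>
    ∏ v : {v : HeightOneSpectrum (𝓞 K) // below v = q}, LFD j s v.1) (fun q => hasProd_fintype _)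
  exact h1.unique h4

include hM in
/-- **the formula modulo the primes above two over `ℚ`** -/
theorem level_zero (hir : Inq r) (hn : Module.finrank ℚ K = 1) {Q P : Finset ℕ}
    (hQ : ∀ q ∈ Q, Inq q ∧ q ≠ r) (hP : ∀ p ∈ P, Spl p) {j : ℕ}
    (hj : ∏ q ∈ Q ∪ P, q = 1 + 4 * j) :
    ∃ Λ : ℂ → ℂ, Differentiable ℂ Λ ∧
      (∀ z : ℂ, 3 / 2 < z.re → HasProd (fun p : Nat.Primes =>
        (1 - bc p * ((∏ q ∈ Q ∪ P, qch q (p : ℕ)) * ((p : ℕ) : ℂ) ^ (-z)) +
        ec p * ((∏ q ∈ Q ∪ P, qch q (p : ℕ)) * ((p : ℕ) : ℂ) ^ (-z)) ^ 2)⁻¹) (Λ z)) ∧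
      (∀ s : ℂ, 2 < s.re → Λ s = (AX K j).LSeries s) ∧
      ∀ (Γ : Type) [LinearOrderedCommGroupWithZero Γ] (v : Valuation ℂ Γ), v 2 < 1 →
        v (quoT K j (Λ 1)) ≤ 1 ∧ (v (quoT K j (Λ 1)) = 1 ↔ (mat Q P).det ≠ 0) := by
  classical
  obtain ⟨L, Ω, hL⟩ := exists_LD
  have hG : IsGalois ℚ K := isGalK r K (M := M)
  have hn' : Module.finrank ℚ K = 2 ^ 0 := by rw [hn, pow_zero]
  have hQ' : ∀ q ∈ Q, Inq q := fun q hq => (hQ q hq).1
  have hPr : ∀ p ∈ P, p ≠ r := by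
    rintro p hp rfl
    exact hir.ns (hP p hp).sq
  have hgp : ∀ q ∈ Q ∪ P, Gp q := by
    intro q hq
    rcases Finset.mem_union.1 hq with h1 | h1
    · exact Gp.of_inq (hQ' q h1)
    · exact Gp.of_spl (hP q h1)
  have hrS : r ∉ Q ∪ P := by
    intro h
    rcases Finset.mem_union.1 h with h1 | h1
    · exact (hQ r h1).2 rfl
    · exact hPr r h1 rfl
  have htam := Pool.Agent.Y890.SG.t_TAM r M K 0 hn' hir Q P j hQ hP hj
  have hX : Nat.card (XK r M K) = 1 := by rw [card_XK, hn]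
  have hfin : Finite (XK r M K) := Nat.finite_of_card_ne_zero (by rw [hX]; norm_num)
  have hE : ∑ᶠ χ : XK r M K, Gx.mx Q P (χ : DirichletCharacter ℂ r) = Q.card + 2 * P.card := by
    have hone : ∀ χ : XK r M K, χ = 1 := by
      intro χ
      have h1 : χ ^ Nat.card (XK r M K) = 1 := pow_card_eq_one'
      rw [hX, pow_one] at h1
      exact h1
    have hun : ∀ q : ℕ, q.Prime → q ≠ r → IsUnit (q : ZMod r) := by
      intro q hq hne
      exact (ZMod.isUnit_iff_coprime q r).2 ((Nat.coprime_primes hq hr.out).2 hne)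
    rw [finsum_eq_single _ (1 : XK r M K) (fun χ h => absurd (hone χ) h)]
    have e1 : ((1 : XK r M K) : DirichletCharacter ℂ r) = 1 := rfl
    unfold Gx.mx
    rw [e1, Finset.filter_true_of_mem, Finset.filter_true_of_mem]
    · intro p hp
      exact MulChar.one_apply (hun p (hP p hp).pr (hPr p hp))
    · intro q hq
      rw [MulChar.one_apply (hun q (hQ q hq).1.pr (hQ q hq).2), one_pow]
  rw [hE] at htam
  have h20 : ∀ (Γ : Type) [LinearOrderedCommGroupWithZero Γ] (v : Valuation ℂ Γ), v 2 ≠ 0 :=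
    fun Γ _ v => (v.ne_zero_iff).2 two_ne_zero
  by_cases hdet : (mat Q P).det = 0
  · obtain ⟨Λ, h1, h2, h4⟩ := val_quad0 inp Pool.Agent.Y21.SG.t_NSI hQ' hP hdet
    have h5 := lser M K hir hn hgp hrS hj h2
    refine ⟨Λ, h1, h2, h5, fun Γ _ v hv => ?_⟩
    have hreal : (starRingEnd ℂ) (Λ 1) = Λ 1 := conj_val h1 (fun k => (AX K j).LFunction k) h5
    have hΩ : v Ω ≠ 0 := (v.ne_zero_iff).2 hL.lat.ne
    have k1 := val_all0 (N := 1) hreal hL (fun Γ _ v hv => by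
      rw [pow_one]
      exact h4 Γ v L Ω hL hv) v hv
    have key : v (quoT K j (Λ 1)) < 1 := by
      rw [v_quoG M K hn' hir htam hL (Λ 1) v hv, pow_zero]
      exact (div_lt_one₀ (zero_lt_iff.2 (mul_ne_zero (pow_ne_zero _ (h20 Γ v))
        (pow_ne_zero _ hΩ)))).2 k1
    exact ⟨key.le, iff_of_false key.ne (not_not.2 hdet)⟩
  · obtain ⟨Λ, h1, h2, h4⟩ := val_quad' inp hQ' hP hdet
    have h5 := lser M K hir hn hgp hrS hj h2
    refine ⟨Λ, h1, h2, h5, fun Γ _ v hv => ?_⟩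
    have hreal : (starRingEnd ℂ) (Λ 1) = Λ 1 := conj_val h1 (fun k => (AX K j).LFunction k) h5
    have hΩ : v Ω ≠ 0 := (v.ne_zero_iff).2 hL.lat.ne
    have k1 := val_allD (N := 1) hreal hL (fun Γ _ v hv => by
      rw [pow_one]
      exact h4 Γ v L Ω hL hv) v hv
    have key : v (quoT K j (Λ 1)) = 1 := by
      rw [v_quoG M K hn' hir htam hL (Λ 1) v hv, pow_zero, k1]
      exact div_self (mul_ne_zero (pow_ne_zero _ (h20 Γ v)) (pow_ne_zero _ hΩ))
    exact ⟨key.le, iff_of_true key hdet⟩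

end

/-- inert primes `1 mod 4` outside a finite set -/
theorem exists_inq (S : Finset ℕ) : ∃ r, Inq r ∧ r ∉ S := by
  obtain ⟨r, h1, h2, h3⟩ := Nat.forall_exists_prime_gt_and_modEq (S.sup id) (q := 28) (a := 5)
    (by norm_num) (by norm_num)
  unfold Nat.ModEq at h3
  have h4 : r % 4 = 1 := by omega
  refine ⟨r, ⟨h2, h4, ?_⟩, ?_⟩
  · rw [sq7_iff h2 h4]
    omega
  · intro h
    have := Finset.le_sup (f := id) h
    simp only [id] at this
    omega

/-- **the formula modulo the primes above two over `ℚ`** -/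
theorem level_Q {Q P : Finset ℕ} (hQ : ∀ q ∈ Q, Inq q) (hP : ∀ p ∈ P, Spl p) {j : ℕ}
    (hj : ∏ q ∈ Q ∪ P, q = 1 + 4 * j) :
    ∃ Λ : ℂ → ℂ, Differentiable ℂ Λ ∧
      (∀ z : ℂ, 3 / 2 < z.re → HasProd (fun p : Nat.Primes =>
        (1 - bc p * ((∏ q ∈ Q ∪ P, qch q (p : ℕ)) * ((p : ℕ) : ℂ) ^ (-z)) +
        ec p * ((∏ q ∈ Q ∪ P, qch q (p : ℕ)) * ((p : ℕ) : ℂ) ^ (-z)) ^ 2)⁻¹) (Λ z)) ∧
      (∀ s : ℂ, 2 < s.re → Λ s = (AX ℚ j).LSeries s) ∧
      ∀ (Γ : Type) [LinearOrderedCommGroupWithZero Γ] (v : Valuation ℂ Γ), v 2 < 1 →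
        v (quoT ℚ j (Λ 1)) ≤ 1 ∧ (v (quoT ℚ j (Λ 1)) = 1 ↔ (mat Q P).det ≠ 0) := by
  obtain ⟨r, hr, hrS⟩ := exists_inq Q
  have : Fact r.Prime := ⟨hr.pr⟩
  have : NeZero r := ⟨hr.pr.ne_zero⟩
  have : NeZero ((r : ℕ) : ℚ) := ⟨by exact_mod_cast hr.pr.ne_zero⟩
  have : IsCyclotomicExtension {r} ℚ (CyclotomicField r ℚ) :=
    CyclotomicField.isCyclotomicExtension r ℚ
  exact level_zero (r := r) (CyclotomicField r ℚ) ℚ hr (Module.finrank_self ℚ)
    (fun q hq => ⟨hQ q hq, fun h => hrS (h ▸ hq)⟩) hP hj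

end Pool.Agent.X99.C49
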