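import Pool.Agent.X99.C49.Loc
import Pool.Agent.Z702.Fin
import Pool.Agent.Y700.Gen

/-!
# The 2-descent for the twists of `X_0(49)`
-/

set_option autoImplicit false
set_option linter.style.haveILetI false

open Finset

namespace Pool.Agent.X99.C49

open Pool.Agent.TH841.SH.D (Sha)
open Pool.Agent.Y700 (VR EQ card_sel count sha_two_pow not_sq_aux)
open Pool.Agent.Y668 (Wt selCoc)
open Pool.Agent.Z702 (WZ sha_ex)

/-- the minimal equation of the twist by `D = 1 mod 4` of `X_0(49)` -/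
def W49 (D : ℤ) : WeierstrassCurve ℤ := ⟨1, -((3 * D + 1) / 4), 0, -2 * D ^ 2, -D ^ 3⟩

theorem vr {M : ℤ} (hM : M % 4 = 1) :
    VR (Wt ((21 * M : ℤ) : ℚ) ((112 * M ^ 2 : ℤ) : ℚ)) ((W49 M).map (Int.castRingHom ℚ)) 2 (-8 * M) 1
      0 := by
  obtain ⟨k, hk⟩ : ∃ k, M = 4 * k + 1 := ⟨M / 4, by omega⟩
  have ha : (((3 * M + 1) / 4 : ℤ) : ℚ) = (3 * M + 1) / 4 := by
    have : (3 * M + 1) / 4 = 3 * k + 1 := by omega
    rw [this, hk]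
    push_cast
    ring
  refine ⟨two_ne_zero, ?_, ?_, ?_, ?_, ?_⟩
  · show (2 : ℚ) * ((1 : ℤ) : ℚ) = 0 + 2 * 1
    norm_num
  · show (2 : ℚ) ^ 2 * ((-((3 * M + 1) / 4) : ℤ) : ℚ) = ((21 * M : ℤ) : ℚ) - 1 * 0 + 3 * (-8 * M) - 1 ^ 2
    rw [Int.cast_neg, ha]
    push_cast
    ring
  · show (2 : ℚ) ^ 3 * ((0 : ℤ) : ℚ) = 0 + (-8 * M) * 0 + 2 * 0
    norm_num
  · show (2 : ℚ) ^ 4 * ((-2 * M ^ 2 : ℤ) : ℚ) = ((112 * M ^ 2 : ℤ) : ℚ) - 1 * 0 +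
      2 * (-8 * M) * ((21 * M : ℤ) : ℚ) - (0 + (-8 * M) * 1) * 0 + 3 * (-8 * (M : ℚ)) ^ 2 - 2 * 1 * 0
    push_cast
    ring
  · show (2 : ℚ) ^ 6 * ((-M ^ 3 : ℤ) : ℚ) = 0 + (-8 * M) * ((112 * M ^ 2 : ℤ) : ℚ) +
      (-8 * M) ^ 2 * ((21 * M : ℤ) : ℚ) + (-8 * (M : ℚ)) ^ 3 - 0 * 0 - 0 ^ 2 - (-8 * M) * 0 * 0
    push_cast
    ring

theorem disc {M : ℤ} (hM : M % 4 = 1) : (W49 M).Δ = -343 * M ^ 6 := by
  obtain ⟨k, hk⟩ : ∃ k, M = 4 * k + 1 := ⟨M / 4, by omega⟩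
  have h : W49 M = ⟨1, -(3 * k + 1), 0, -2 * (4 * k + 1) ^ 2, -(4 * k + 1) ^ 3⟩ := by
    unfold W49
    have : (3 * M + 1) / 4 = 3 * k + 1 := by omega
    rw [this, hk]
  rw [h, hk]
  unfold WeierstrassCurve.Δ WeierstrassCurve.b₈ WeierstrassCurve.b₆ WeierstrassCurve.b₄
    WeierstrassCurve.b₂
  ring

theorem disc_ne {M : ℤ} (hM : M % 4 = 1) : ((W49 M).map (Int.castRingHom ℚ)).Δ ≠ 0 := by
  rw [WeierstrassCurve.map_Δ]
  have hM0 : M ≠ 0 := by omega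
  have h5 : (W49 M).Δ ≠ 0 := by
    rw [disc hM]
    exact mul_ne_zero (by norm_num) (pow_ne_zero 6 hM0)
  show (((W49 M).Δ : ℤ) : ℚ) ≠ 0
  exact_mod_cast h5

theorem ns_b {M : ℤ} (hM : M ≠ 0) : ¬ IsSquare ((112 * M ^ 2 : ℤ) : ℚ) :=
  not_sq_aux _ (by
    rintro ⟨r, hr⟩
    have k1 : r < 11 := by nlinarith
    have k2 : -11 < r := by nlinarith
    interval_cases r <;> omega) hM

theorem ns_ab {M : ℤ} (hM : M ≠ 0) :
    ¬ IsSquare (((21 * M : ℤ) : ℚ) ^ 2 - 4 * ((112 * M ^ 2 : ℤ) : ℚ)) := by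
  have e : ((21 * M : ℤ) : ℚ) ^ 2 - 4 * ((112 * M ^ 2 : ℤ) : ℚ) = (((-7) * M ^ 2 : ℤ) : ℚ) := by
    push_cast; ring
  rw [e]
  exact not_sq_aux _ (by decide) hM

/-- the product of different primes is not a square -/
theorem ns_prod {J : Finset ℕ} (hJ : ∀ p ∈ J, p.Prime) (hne : J.Nonempty) :
    ¬ IsSquare ((((∏ p ∈ J, p : ℕ) : ℤ)) : ℚ) :=
  Pool.Agent.Z702.ns_J hJ hne

/-- **the algebraic side** -/
theorem alg {Q P : Finset ℕ} (H : Dat Q P) (hdet : ∀ J, Ker Q P J → J = ∅) :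
    (∀ (n : ℕ) (x : Sha ((W49 (Mn Q P)).map (Int.castRingHom ℚ))), 2 ^ n • x = 0 → x = 0) ∧
    Finite ((W49 (Mn Q P)).map (Int.castRingHom ℚ)).toAffine.Point ∧
    ∃ k, Odd k ∧ Nat.card ((W49 (Mn Q P)).map (Int.castRingHom ℚ)).toAffine.Point = 2 * k := by
  have h4 := Mn4 H
  obtain ⟨M, hMd⟩ : ∃ M : ℤ, M = (Mn Q P : ℤ) := ⟨_, rfl⟩
  have s1 := fun z : ℤ => selA H hdet (z := z)
  have s2 := fun z : ℤ => selB H hdet (z := z)
  rw [← hMd] at h4 s1 s2 ⊢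
  have hM0 : M ≠ 0 := by intro h; rw [h] at h4; norm_num at h4
  have hM2 : 0 < M ^ 2 := by positivity
  have hb : 112 * M ^ 2 ≠ 0 := by positivity
  have hab : (21 * M) ^ 2 - 4 * (112 * M ^ 2) < 0 := by nlinarith
  obtain ⟨hfin, hcard⟩ := card_sel (a := 21 * M) (b := 112 * M ^ 2) hb hab
    (S1 := {1, 7}) (S2 := {1, -7}) (Set.toFinite _) (Set.toFinite _) (by
      intro z hz hz0 hpc
      have := s1 z hz hz0 (fun l _ => hpc l)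
      simpa using this) (by
      intro z hz hpc
      have e1 : (-2 : ℤ) * (21 * M) = -42 * M := by ring
      have e2 : ((21 : ℤ) * M) ^ 2 - 4 * (112 * M ^ 2) = -7 * M ^ 2 := by ring
      have := s2 z hz (fun l _ => by
        have h3 := hpc l
        rw [e1, e2] at h3
        exact h3)
      simpa using this)
  have hc4 : Nat.card (selCoc (Wt ((21 * M : ℤ) : ℚ) ((112 * M ^ 2 : ℤ) : ℚ))) ≤ 4 := by
    refine hcard.trans ?_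
    rw [Set.ncard_pair (by norm_num), Set.ncard_pair (by norm_num)]
  have hbQ : ((112 * M ^ 2 : ℤ) : ℚ) ≠ 0 := by exact_mod_cast hb
  have habQ : ((21 * M : ℤ) : ℚ) ^ 2 - 4 * ((112 * M ^ 2 : ℤ) : ℚ) ≠ 0 := by
    exact_mod_cast hab.ne
  obtain ⟨c1, c2, k, hk, c3⟩ := count hbQ habQ (ns_ab hM0) (ns_b hM0) hfin hc4
  have hv := vr h4
  have hD := disc_ne h4
  let e := hv.equiv hD
  refine ⟨fun n x hx => sha_two_pow hv hD c1 n x hx, ?_, k, hk, ?_⟩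
  · exact Finite.of_equiv _ e.toEquiv.symm
  · rw [← c3]
    exact Nat.card_congr e.toEquiv

theorem trn {M : ℤ} (h4 : M % 4 = 1) :
    (Finite (WZ (21 * M) (112 * M ^ 2)).toAffine.Point ↔ Finite (EQ (W49 M)).toAffine.Point) ∧
    ((∀ x : Sha (WZ (21 * M) (112 * M ^ 2)), x + x = 0 → x = 0) ↔
      ∀ x : Sha (EQ (W49 M)), x + x = 0 → x = 0) ∧
    Nat.card (AddCommGroup.torsion (WZ (21 * M) (112 * M ^ 2)).toAffine.Point) =
      Nat.card (AddCommGroup.torsion (EQ (W49 M)).toAffine.Point) :=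
  Pool.Agent.Z702.f_TRN _ _ _ _ _ _ (vr h4) (disc_ne h4)

/-- **the order of the torsion group is twice an odd number** -/
theorem tors {M : ℤ} (h4 : M % 4 = 1) :
    ∃ k : ℕ, Odd k ∧ Nat.card (AddCommGroup.torsion (EQ (W49 M)).toAffine.Point) = 2 * k := by
  have hM0 : M ≠ 0 := by omega
  have hM2 : 0 < M ^ 2 := by positivity
  have hb : 112 * M ^ 2 ≠ 0 := by positivity
  have hab : (21 * M) ^ 2 - 4 * (112 * M ^ 2) < 0 := by nlinarith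
  obtain ⟨k, hk, h⟩ := Pool.Agent.Z702.f_TORS (21 * M) (112 * M ^ 2) hb hab.ne (ns_b hM0) (ns_ab hM0)
  exact ⟨k, hk, (trn h4).2.2 ▸ h⟩

/-- **the equivalence** -/
theorem equiv {Q P : Finset ℕ} (H : Dat Q P) : (mat Q P).det ≠ 0 ↔
    (Finite (EQ (W49 (Mn Q P))).toAffine.Point ∧
      ∀ x : Sha (EQ (W49 (Mn Q P))), x + x = 0 → x = 0) := by
  rw [det_iff H.disj]
  constructor
  · intro hdet
    obtain ⟨a1, a2, -⟩ := alg H hdet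
    exact ⟨a2, fun x hx => a1 1 x (by rw [pow_one, two_nsmul]; exact hx)⟩
  · rintro ⟨hf, hsh⟩ J hJ
    by_contra hne
    have hJne := Finset.nonempty_iff_ne_empty.2 hne
    have h4 := Mn4 H
    obtain ⟨t1, t2, -⟩ := trn h4
    obtain ⟨l1, l2⟩ := loc Pool.Agent.Z702.f_LQ H hJ
    have hJp : ∀ p ∈ J, p.Prime := fun p hp => (H.hP p (hJ.1 hp)).1
    obtain ⟨M, hMd⟩ : ∃ M : ℤ, M = (Mn Q P : ℤ) := ⟨_, rfl⟩
    rw [← hMd] at h4 t1 t2 l1 l2 hf hsh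
    have hM0 : M ≠ 0 := by omega
    have hM2 : 0 < M ^ 2 := by positivity
    have hb : 112 * M ^ 2 ≠ 0 := by positivity
    have hab : (21 * M) ^ 2 - 4 * (112 * M ^ 2) < 0 := by nlinarith
    have hd0 : 0 < ∏ q ∈ J, q := Finset.prod_pos fun q hq => (hJp q hq).pos
    obtain ⟨x, hx0, hx2⟩ := sha_ex Pool.Agent.Z702.f_COC Pool.Agent.Z702.f_LOT
      Pool.Agent.Z702.f_COB Pool.Agent.Z702.f_TOR (d := ((∏ q ∈ J, q : ℕ) : ℤ)) hb
      hab.ne (ns_b hM0) (ns_ab hM0) (by exact_mod_cast hd0.ne')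
      (ns_prod hJp hJne) (by
        rintro ⟨r, hr⟩
        have h5 : (((21 * M : ℤ) : ℚ) ^ 2 - 4 * ((112 * M ^ 2 : ℤ) : ℚ)) < 0 := by exact_mod_cast hab
        have h6 : (0 : ℚ) < (((∏ q ∈ J, q : ℕ) : ℤ) : ℚ) := by exact_mod_cast hd0
        nlinarith [mul_self_nonneg r, mul_pos h6 (neg_pos.2 h5)]) l1 l2 (t1.2 hf)
    exact hx0 ((t2.2 hsh) x hx2)

end Pool.Agent.X99.C49
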