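import Mathlib
import Pool.Agent.X99.GQ.Fin
import Pool.Agent.X99.C49.Equiv
import Pool.Agent.X99.C49.Res

/-!
# The exact proportion for the twists of `X_0(49)` by the squarefree products of primes `1 mod 4`
-/

set_option autoImplicit false
set_option linter.style.haveILetI false

open Finset

namespace Pool.Agent.X99.C49

open Pool.Agent.X99.GQ (Par Ok HAL Cl Gd Sol Sp In S_DEN cu)
open Pool.Agent.Y703.CQ (nr c2)

/-- the parameters: all classes modulo `28` of primes `1` modulo `4` -/
def P28 : Par := ⟨28, {1, 9, 25}, {5, 13, 17}, range 28⟩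

theorem ok28 : Ok P28 where
  pos := by decide
  four := by decide
  one := by decide
  cop := by decide
  disj := by decide
  neA := by decide
  neB := by decide
  fix := by
    refine ⟨∅, by simp, fun T _ _ => ⟨∅, Finset.Subset.refl _, 1, by decide, ?_⟩⟩
    exact mem_range.2 (Nat.mod_lt _ (by decide))

open Pool.Agent.Y475.CQ (cJ cJ_mod c0 c0_mod)

/-- the two characters -/
noncomputable def ch : Fin 2 → (ℕ →* ℝ) := ![c0, cJ 7]

theorem rc28 : Pool.Agent.X99.GQ.Ha.RC P28 ch where
  val := by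
    intro i n
    fin_cases i
    · show ((ZMod.χ₄ (n : ZMod 4) : ℤ) : ℝ) = 0 ∨ _ = 1 ∨ _ = -1
      have : ∀ z : ZMod 4, ZMod.χ₄ z = 0 ∨ ZMod.χ₄ z = 1 ∨ ZMod.χ₄ z = -1 := by decide
      rcases this (n : ZMod 4) with h | h | h
      · left; rw [h]; simp
      · right; left; show ((ZMod.χ₄ (n : ZMod 4) : ℤ) : ℝ) = 1; rw [h]; simp
      · right; right; show ((ZMod.χ₄ (n : ZMod 4) : ℤ) : ℝ) = -1; rw [h]; simp
    · exact Pool.Agent.X99.GQ.Ha.cJ_val 7 n
  per := by
    intro i a b h
    have h28 : a ≡ b [MOD 28] := h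
    fin_cases i
    · exact c0_mod a b (h28.of_dvd (by norm_num))
    · exact cJ_mod 7 a b (h28.of_dvd (by norm_num))
  ind := by
    intro V hV
    have e0 : ∀ k : ℕ, ch 0 k = ((ZMod.χ₄ (k : ZMod 4) : ℤ) : ℝ) := fun _ => rfl
    have e1 : ∀ k : ℕ, ch 1 k = ((jacobiSym (k : ℤ) 7 : ℤ) : ℝ) := fun _ => rfl
    have a1 : ZMod.χ₄ ((15 : ℕ) : ZMod 4) = -1 := by decide
    have a2 : jacobiSym ((15 : ℕ) : ℤ) 7 = 1 := by norm_num
    have b1 : ZMod.χ₄ ((17 : ℕ) : ZMod 4) = 1 := by decide
    have b2 : jacobiSym ((17 : ℕ) : ℤ) 7 = -1 := by norm_num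
    by_cases h0 : (0 : Fin 2) ∈ V
    · refine ⟨15, by decide, ?_⟩
      rw [MonoidHom.finsetProd_apply, prod_eq_single_of_mem 0 h0]
      · rw [e0, a1]; simp
      · intro i _ hi
        fin_cases i
        · exact absurd rfl hi
        · show ch 1 15 = 1
          rw [e1, a2]; simp
    · have h1 : (1 : Fin 2) ∈ V := by
        obtain ⟨j, hj⟩ := hV
        fin_cases j
        · exact absurd hj h0
        · exact hj
      refine ⟨17, by decide, ?_⟩
      rw [MonoidHom.finsetProd_apply, prod_eq_single_of_mem 1 h1]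
      · rw [e1, b2]; simp
      · intro i hi hne
        fin_cases i
        · exact absurd hi h0
        · exact absurd rfl hne
  one := by
    intro i a ha
    have ha' : a % 28 = 1 ∨ a % 28 = 9 ∨ a % 28 = 25 := by
      have : a % 28 ∈ ({1, 9, 25} : Finset ℕ) := ha
      simpa using this
    fin_cases i
    · show c0 a = 1
      rw [c0_mod a 1 (show a % 4 = 1 % 4 by omega), map_one]
    · show cJ 7 a = 1
      have h7 : a % 7 = 1 ∨ a % 7 = 2 ∨ a % 7 = 4 := by omega
      rcases h7 with h | h | h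
      · rw [cJ_mod 7 a 1 (show a % 7 = 1 % 7 by omega), map_one]
      · rw [cJ_mod 7 a 2 (show a % 7 = 2 % 7 by omega)]
        show ((jacobiSym ((2 : ℕ) : ℤ) 7 : ℤ) : ℝ) = 1
        have : jacobiSym ((2 : ℕ) : ℤ) 7 = 1 := by norm_num
        rw [this]; simp
      · rw [cJ_mod 7 a 4 (show a % 7 = 4 % 7 by omega)]
        show ((jacobiSym ((4 : ℕ) : ℤ) 7 : ℤ) : ℝ) = 1
        have : jacobiSym ((4 : ℕ) : ℤ) 7 = 1 := by norm_num
        rw [this]; simp

/-- **the exact proportion** -/
theorem den28 : S_DEN P28 := by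
  refine Pool.Agent.X99.GQ.DEN ok28 (h := 1 / 2 ^ (Fintype.card (Fin 2) + 1)) (by positivity)
    (Pool.Agent.X99.GQ.Ha.t_HAL ok28 rc28) ?_
  have e1 : Pool.Agent.X99.GQ.al P28 = 1 / 4 := by
    unfold Pool.Agent.X99.GQ.al
    have h1 : P28.A.card = 3 := by decide
    have h2 : Nat.totient P28.N = 12 := by decide
    rw [h1, h2]
    norm_num
  rw [e1, Fintype.card_fin]
  norm_num

/-! ### the class -/

/-- squarefree with all prime factors `1` modulo `4` -/
def Fam (D : ℕ) : Prop := Squarefree D ∧ ∀ p : ℕ, p.Prime → p ∣ D → p % 4 = 1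

theorem fam_iff (D : ℕ) : (Squarefree D ∧ Cl P28 D.primeFactors) ↔ Fam D := by
  unfold Fam Cl
  refine and_congr_right fun hD => ?_
  have hD0 := hD.ne_zero
  constructor
  · rintro ⟨h, -⟩ p hp hpD
    have hm : p ∈ D.primeFactors := Nat.mem_primeFactors.2 ⟨hp, hpD, hD0⟩
    rcases h p hm with h1 | h1
    · have h2 : p % 28 ∈ ({1, 9, 25} : Finset ℕ) := h1.2
      simp only [mem_insert, mem_singleton] at h2
      omega
    · have h2 : p % 28 ∈ ({5, 13, 17} : Finset ℕ) := h1.2
      simp only [mem_insert, mem_singleton] at h2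
      omega
  · intro h
    refine ⟨fun p hp => ?_, mem_range.2 (Nat.mod_lt _ (by decide))⟩
    obtain ⟨hp1, hp2, -⟩ := Nat.mem_primeFactors.1 hp
    have h4 := h p hp1 hp2
    have h7 : p % 7 ≠ 0 := by
      intro h7
      have := (Nat.prime_dvd_prime_iff_eq (by norm_num) hp1).1 (Nat.dvd_of_mod_eq_zero h7)
      omega
    have hc : p % 28 = 1 ∨ p % 28 = 9 ∨ p % 28 = 25 ∨ p % 28 = 5 ∨ p % 28 = 13 ∨ p % 28 = 17 := by
      omega
    by_cases hA : p % 28 = 1 ∨ p % 28 = 9 ∨ p % 28 = 25
    · left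
      refine ⟨hp1, ?_⟩
      show p % 28 ∈ ({1, 9, 25} : Finset ℕ)
      simpa using hA
    · right
      refine ⟨hp1, ?_⟩
      show p % 28 ∈ ({5, 13, 17} : Finset ℕ)
      simp only [mem_insert, mem_singleton]
      tauto

open Classical in
/-- the inert primes of `D` -/
noncomputable def IP (D : ℕ) : Finset ℕ := D.primeFactors.filter fun p => ¬ IsSquare (-7 : ZMod p)

open Classical in
/-- the split primes of `D` -/
noncomputable def SPr (D : ℕ) : Finset ℕ := D.primeFactors.filter fun p => IsSquare (-7 : ZMod p)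

theorem mem_IP {D p : ℕ} : p ∈ IP D ↔ p ∈ D.primeFactors ∧ ¬ IsSquare (-7 : ZMod p) := by
  classical
  unfold IP
  exact Finset.mem_filter

theorem mem_SPr {D p : ℕ} : p ∈ SPr D ↔ p ∈ D.primeFactors ∧ IsSquare (-7 : ZMod p) := by
  classical
  unfold SPr
  exact Finset.mem_filter

theorem union_eq (D : ℕ) : IP D ∪ SPr D = D.primeFactors := by
  ext p
  rw [mem_union, mem_IP, mem_SPr]
  tauto

theorem dat {D : ℕ} (h : Fam D) : Dat (IP D) (SPr D) := by
  constructor
  · intro q hq
    obtain ⟨h1, h2⟩ := mem_IP.1 hq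
    obtain ⟨h3, h4, -⟩ := Nat.mem_primeFactors.1 h1
    exact ⟨h3, h.2 q h3 h4, h2⟩
  · intro q hq
    obtain ⟨h1, h2⟩ := mem_SPr.1 hq
    obtain ⟨h3, h4, -⟩ := Nat.mem_primeFactors.1 h1
    exact ⟨h3, h.2 q h3 h4, h2⟩

theorem mem_A_iff {D : ℕ} (h : Fam D) {p : ℕ} (hp : p ∈ D.primeFactors) :
    p % P28.N ∈ P28.A ↔ p ∈ SPr D := by
  obtain ⟨h3, h4, -⟩ := Nat.mem_primeFactors.1 hp
  have h5 := h.2 p h3 h4
  rw [mem_SPr, sq7_iff h3 h5]
  show p % 28 ∈ ({1, 9, 25} : Finset ℕ) ↔ _
  simp only [mem_insert, mem_singleton, hp, true_and]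
  omega

theorem nr_eq (p m : ℕ) : nr p m = nq p m := by
  unfold nr nq
  rfl

/-- the kernel of the matrix -/
theorem gd_iff {D : ℕ} (h : Fam D) : Gd P28 n4 D.primeFactors ↔ (mat (IP D) (SPr D)).det ≠ 0 := by
  classical
  have hdis := (dat h).disj
  rw [det_iff hdis]
  have hU := union_eq D
  -- the value of a row
  have key : ∀ (x : ℕ → ZMod 2) (p : ℕ), p ∈ SPr D →
      ∑ q ∈ D.primeFactors, nr p q * (cu P28 x q + x p) + n4 p * x p =
        if x p = 1 then n4 p + ∑ l ∈ (IP D ∪ SPr D) \ ((SPr D).filter fun q => x q = 1), nq p l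
        else ∑ q ∈ (SPr D).filter (fun q => x q = 1), nq p q := by
    intro x p hp
    have hcu : ∀ q ∈ D.primeFactors, cu P28 x q =
        if q ∈ (SPr D).filter (fun q => x q = 1) then 1 else 0 := by
      intro q hq
      unfold cu
      by_cases hA : q % P28.N ∈ P28.A
      · rw [if_pos hA]
        have hqS := (mem_A_iff h hq).1 hA
        have hv : ∀ z : ZMod 2, z = 0 ∨ z = 1 := by decide
        rcases hv (x q) with h0 | h0
        · rw [if_neg, h0]
          rw [mem_filter]
          rintro ⟨-, h1⟩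
          rw [h0] at h1
          exact absurd h1 (by decide)
        · rw [if_pos, h0]
          rw [mem_filter]
          exact ⟨hqS, h0⟩
      · rw [if_neg hA, if_neg]
        rw [mem_filter]
        rintro ⟨h1, -⟩
        exact hA ((mem_A_iff h hq).2 h1)
    have hv : ∀ z : ZMod 2, z = 0 ∨ z = 1 := by decide
    set J := (SPr D).filter fun q => x q = 1 with hJ
    have hJS : J ⊆ D.primeFactors := by
      rw [← hU]
      exact (filter_subset _ _).trans subset_union_right
    rcases hv (x p) with h0 | h0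
    · rw [if_neg (by rw [h0]; decide), h0, mul_zero, add_zero]
      have e1 : ∀ q ∈ D.primeFactors, nr p q * (cu P28 x q + 0) = if q ∈ J then nq p q else 0 := by
        intro q hq
        rw [hcu q hq, nr_eq, add_zero]
        split_ifs
        · rw [mul_one]
        · rw [mul_zero]
      rw [sum_congr rfl e1, ← sum_filter]
      congr 1
      rw [filter_mem_eq_inter, inter_eq_right.2 hJS]
    · rw [if_pos h0, h0, mul_one, hU]
      have e1 : ∀ q ∈ D.primeFactors, nr p q * (cu P28 x q + 1) =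
          if ¬ q ∈ J then nq p q else 0 := by
        intro q hq
        rw [hcu q hq, nr_eq]
        by_cases hqJ : q ∈ J
        · rw [if_pos hqJ, if_neg (not_not.2 hqJ)]
          have : (1 : ZMod 2) + 1 = 0 := by decide
          rw [this, mul_zero]
        · rw [if_neg hqJ, if_pos hqJ, zero_add, mul_one]
      rw [sum_congr rfl e1, ← sum_filter, add_comm]
      congr 1
      rw [← sdiff_eq_filter]
  constructor
  · intro hg J hJ
    by_contra hne
    obtain ⟨p, hp⟩ := nonempty_iff_ne_empty.2 hne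
    have hx : ∀ q, (if q ∈ J then (1 : ZMod 2) else 0) = 1 ↔ q ∈ J := by
      intro q
      split_ifs with h1
      · exact iff_of_true rfl h1
      · exact iff_of_false (by decide) h1
    have hJf : (SPr D).filter (fun q => (if q ∈ J then (1 : ZMod 2) else 0) = 1) = J := by
      ext q
      rw [mem_filter, hx]
      exact ⟨fun h => h.2, fun h => ⟨hJ.1 h, h⟩⟩
    have hpS : p ∈ D.primeFactors := by
      rw [← hU]
      exact mem_union_right _ (hJ.1 hp)
    have h1 := hg (fun q => if q ∈ J then 1 else 0) (fun q hq hqA => ?_) p hpS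
      ((mem_A_iff h hpS).2 (hJ.1 hp))
    · rw [if_pos hp] at h1
      exact one_ne_zero h1
    · have hqS := (mem_A_iff h hq).1 hqA
      rw [key _ q hqS, hJf]
      by_cases hqJ : q ∈ J
      · rw [if_pos ((hx q).2 hqJ)]
        exact hJ.2.2 q hqJ
      · rw [if_neg (fun h => hqJ ((hx q).1 h))]
        exact hJ.2.1 q (mem_sdiff.2 ⟨hqS, hqJ⟩)
  · intro hk x hx p hp hpA
    have hpS := (mem_A_iff h hp).1 hpA
    have hker : Ker (IP D) (SPr D) ((SPr D).filter fun q => x q = 1) := by
      refine ⟨filter_subset _ _, fun q hq => ?_, fun q hq => ?_⟩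
      · obtain ⟨h1, h2⟩ := mem_sdiff.1 hq
        have hqD : q ∈ D.primeFactors := by
          rw [← hU]
          exact mem_union_right _ h1
        have h3 := hx q hqD ((mem_A_iff h hqD).2 h1)
        rw [key x q h1, if_neg] at h3
        · exact h3
        · intro h4
          exact h2 (mem_filter.2 ⟨h1, h4⟩)
      · obtain ⟨h1, h2⟩ := mem_filter.1 hq
        have hqD : q ∈ D.primeFactors := by
          rw [← hU]
          exact mem_union_right _ h1
        have h3 := hx q hqD ((mem_A_iff h hqD).2 h1)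
        rw [key x q h1, if_pos h2] at h3
        exact h3
    have hem := hk _ hker
    have hv : ∀ z : ZMod 2, z = 0 ∨ z = 1 := by decide
    rcases hv (x p) with h0 | h0
    · exact h0
    · exfalso
      have : p ∈ (SPr D).filter fun q => x q = 1 := mem_filter.2 ⟨hpS, h0⟩
      rw [hem] at this
      exact notMem_empty _ this

theorem Mn_eq {D : ℕ} (h : Fam D) : Mn (IP D) (SPr D) = D := by
  have h1 : ∏ q ∈ IP D ∪ SPr D, q = D := by
    rw [union_eq]
    exact Nat.prod_primeFactors_of_squarefree h.1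
  exact h1

end Pool.Agent.X99.C49
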