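import Mathlib
import Pool.Agent.X99.C49.Ana
import Pool.Agent.X99.C49.Prop
import Pool.Agent.Y687.K2.RankForm

/-!
# The incomplete L-function and the rank form for the twists of `X_0(49)`
-/

set_option autoImplicit false
set_option linter.unusedSectionVars false
set_option linter.style.haveILetI false

open Finset

namespace Pool.Agent.X99.C49

open Pool.Agent.Y698 Pool.Agent.Y698.SG
open W165.CE (pw)

/-- the affine points of the two models -/
theorem card_short {p : ℕ} [hf : Fact p.Prime] (hp2 : p ≠ 2) (j : ℕ) :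
    Nat.card {q : ZMod p × ZMod p //
      q.2 ^ 2 = q.1 ^ 3 + ((-35 * (1 + 4 * j : ℤ) ^ 2 : ℤ) : ZMod p) * q.1 +
        ((-98 * (1 + 4 * j : ℤ) ^ 3 : ℤ) : ZMod p)} = Nat.card (AP (EX (ZMod p) (j : ZMod p))) := by
  have h2 : (2 : ZMod p) ≠ 0 := by
    intro h
    have h1 : ((2 : ℕ) : ZMod p) = 0 := by exact_mod_cast h
    rw [ZMod.natCast_eq_zero_iff] at h1
    exact hp2 ((Nat.prime_dvd_prime_iff_eq hf.out Nat.prime_two).1 h1)
  have h4 : (4 : ZMod p) ≠ 0 := by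
    have : (4 : ZMod p) = 2 * 2 := by norm_num
    rw [this]
    exact mul_ne_zero h2 h2
  have h8 : (8 : ZMod p) ≠ 0 := by
    have : (8 : ZMod p) = 4 * 2 := by norm_num
    rw [this]
    exact mul_ne_zero h4 h2
  have h64 : (64 : ZMod p) ≠ 0 := by
    have : (64 : ZMod p) = 8 * 8 := by norm_num
    rw [this]
    exact mul_ne_zero h8 h8
  have key : ∀ x y : ZMod p, (8 * y + 4 * x) ^ 2 = (4 * x - (1 + 4 * j)) ^ 3 +
      ((-35 * (1 + 4 * j : ℤ) ^ 2 : ℤ) : ZMod p) * (4 * x - (1 + 4 * j)) +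
        ((-98 * (1 + 4 * j : ℤ) ^ 3 : ℤ) : ZMod p) ↔
      (EX (ZMod p) (j : ZMod p)).toAffine.Equation x y := by
    intro x y
    rw [WeierstrassCurve.Affine.equation_iff]
    unfold EX
    push_cast
    constructor
    · intro h
      apply mul_left_cancel₀ h64
      linear_combination h
    · intro h
      linear_combination 64 * h
  symm
  apply Nat.card_congr
  refine ⟨fun Q => ⟨(4 * Q.1.1 - (1 + 4 * j), 8 * Q.1.2 + 4 * Q.1.1), (key _ _).2 Q.2⟩,
    fun Q => ⟨((Q.1.1 + (1 + 4 * j)) / 4, (Q.1.2 - (Q.1.1 + (1 + 4 * j))) / 8), ?_⟩, ?_, ?_⟩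
  · refine (key _ _).1 ?_
    have e1 : 8 * ((Q.1.2 - (Q.1.1 + (1 + 4 * (j : ZMod p)))) / 8) +
        4 * ((Q.1.1 + (1 + 4 * (j : ZMod p))) / 4) = Q.1.2 := by
      rw [mul_div_cancel₀ _ h8, mul_div_cancel₀ _ h4]
      ring
    have e2 : 4 * ((Q.1.1 + (1 + 4 * (j : ZMod p))) / 4) - (1 + 4 * (j : ZMod p)) = Q.1.1 := by
      rw [mul_div_cancel₀ _ h4]
      ring
    rw [e1, e2]
    exact Q.2
  · rintro ⟨⟨x, y⟩, h⟩
    apply Subtype.ext
    apply Prod.ext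
    · show (4 * x - (1 + 4 * (j : ZMod p)) + (1 + 4 * (j : ZMod p))) / 4 = x
      rw [sub_add_cancel, mul_div_cancel_left₀ _ h4]
    · show (8 * y + 4 * x - (4 * x - (1 + 4 * (j : ZMod p)) + (1 + 4 * (j : ZMod p)))) / 8 = y
      rw [sub_add_cancel, add_sub_cancel_right, mul_div_cancel_left₀ _ h8]
  · rintro ⟨⟨x, y⟩, h⟩
    apply Subtype.ext
    apply Prod.ext
    · show 4 * ((x + (1 + 4 * (j : ZMod p))) / 4) - (1 + 4 * (j : ZMod p)) = x
      rw [mul_div_cancel₀ _ h4]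
      ring
    · show 8 * ((y - (x + (1 + 4 * (j : ZMod p)))) / 8) + 4 * ((x + (1 + 4 * (j : ZMod p))) / 4) = y
      rw [mul_div_cancel₀ _ h8, mul_div_cancel₀ _ h4]
      ring

/-- the Frobenius traces -/
theorem trace_short {S : Finset ℕ} (hS : ∀ q ∈ S, Gp q) {j : ℕ} (hj : ∏ q ∈ S, q = 1 + 4 * j)
    {p : ℕ} (hp : p.Prime) (hp2 : p ≠ 2) (hp7 : p ≠ 7) (hpS : p ∉ S) :
    ((p : ℂ) - (Nat.card {q : ZMod p × ZMod p //
      q.2 ^ 2 = q.1 ^ 3 + ((-35 * (1 + 4 * j : ℤ) ^ 2 : ℤ) : ZMod p) * q.1 +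
        ((-98 * (1 + 4 * j : ℤ) ^ 3 : ℤ) : ZMod p)} : ℂ)) = (∏ q ∈ S, qch q p) * bc p := by
  have hf : Fact p.Prime := ⟨hp⟩
  rw [card_short hp2 j]
  have h1 := trace_tw (ZMod p) hp hp7 one_ne_zero (by rw [Nat.card_zmod, pow_one]) hS hpS hj
  rw [Nat.card_zmod, pow_one] at h1
  have e : pw (bc p) (ec p) 1 = bc p := rfl
  rw [e] at h1
  rw [← h1]
  push_cast
  rfl

/-- the local factor at two -/
noncomputable def f2 (c z : ℂ) : ℂ := 1 - c * (2 : ℂ) ^ (-z) + 2 * (c * (2 : ℂ) ^ (-z)) ^ 2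

theorem f2_diff (c : ℂ) : Differentiable ℂ (f2 c) := by
  unfold f2
  have h : Differentiable ℂ fun z : ℂ => (2 : ℂ) ^ (-z) := by
    intro z
    exact (differentiableAt_id.neg).const_cpow (Or.inl two_ne_zero)
  exact (((differentiable_const _).sub ((differentiable_const _).mul h)).add
    ((differentiable_const _).mul (((differentiable_const _).mul h).pow 2)))

theorem f2_one {c : ℂ} (hc : c ^ 2 = 1) : f2 c 1 ≠ 0 := by
  unfold f2
  have e : (2 : ℂ) ^ (-1 : ℂ) = 1 / 2 := by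
    rw [Complex.cpow_neg_one]
    norm_num
  rw [e]
  have h1 : (c - 1) * (c + 1) = 0 := by linear_combination hc
  rcases mul_eq_zero.1 h1 with h | h
  · have : c = 1 := by linear_combination h
    rw [this]
    norm_num
  · have : c = -1 := by linear_combination h
    rw [this]
    norm_num

theorem one_ne {x : ℂ} (hx : ‖x‖ < 1 / 2) : 1 - x + 2 * x ^ 2 ≠ 0 := by
  intro h0
  have h8 : (1 : ℂ) = x - 2 * x ^ 2 := by linear_combination h0
  have h9 : (1 : ℝ) ≤ ‖x‖ + 2 * ‖x‖ ^ 2 := by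
    calc (1 : ℝ) = ‖(1 : ℂ)‖ := norm_one.symm
      _ = ‖x - 2 * x ^ 2‖ := by rw [← h8]
      _ ≤ ‖x‖ + ‖2 * x ^ 2‖ := norm_sub_le _ _
      _ = ‖x‖ + 2 * ‖x‖ ^ 2 := by
          rw [norm_mul, norm_pow]
          norm_num
  have h10 := norm_nonneg x
  nlinarith

theorem f2_ne {c s : ℂ} (hc2 : c ^ 2 = 1) (hs : 1 < s.re) : f2 c s ≠ 0 := by
  unfold f2
  apply one_ne
  rw [norm_mul]
  have h3 : ‖c‖ = 1 := by
    have : ‖c‖ ^ 2 = 1 := by rw [← norm_pow, hc2, norm_one]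
    have h4 := norm_nonneg c
    nlinarith
  rw [h3, one_mul]
  have h5 : ‖(2 : ℂ) ^ (-s)‖ = (2 : ℝ) ^ (-s.re) := by
    rw [show (2 : ℂ) = ((2 : ℝ) : ℂ) by norm_num,
      Complex.norm_cpow_eq_rpow_re_of_pos (by norm_num), Complex.neg_re]
  rw [h5]
  have h6 : (2 : ℝ) ^ (-s.re) < (2 : ℝ) ^ (-1 : ℝ) :=
    Real.rpow_lt_rpow_of_exponent_lt (by norm_num) (by linarith)
  have h7 : (2 : ℝ) ^ (-1 : ℝ) = 1 / 2 := by
    rw [Real.rpow_neg_one]
    norm_num
  rw [h7] at h6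
  exact h6

/-- **the rank form** -/
theorem rank_form {Q P : Finset ℕ} (hQ : ∀ q ∈ Q, Inq q) (hP : ∀ p ∈ P, Spl p) {j : ℕ}
    (hj : ∏ q ∈ Q ∪ P, q = 1 + 4 * j) {Λ : ℂ → ℂ} (hΛ : Differentiable ℂ Λ)
    (h2 : ∀ z : ℂ, 3 / 2 < z.re → HasProd (fun p : Nat.Primes =>
        (1 - bc p * ((∏ q ∈ Q ∪ P, qch q (p : ℕ)) * ((p : ℕ) : ℂ) ^ (-z)) +
        ec p * ((∏ q ∈ Q ∪ P, qch q (p : ℕ)) * ((p : ℕ) : ℂ) ^ (-z)) ^ 2)⁻¹) (Λ z)) (a b : ℤ)
    (ha : a = -35 * (1 + 4 * j : ℤ) ^ 2) (hb : b = -98 * (1 + 4 * j : ℤ) ^ 3) :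
    ∃ F : ℂ → ℂ, Differentiable ℂ F ∧
        (∀ s : ℂ, (3 : ℝ) / 2 < s.re →
          HasProd
            (fun p : ℕ => open Classical in
              if p.Prime ∧ ¬ ((p : ℤ) ∣ 2 * (-4 * a ^ 3 - 27 * b ^ 2)) then
                (1 - ((p : ℂ) - (Nat.card {q : ZMod p × ZMod p //
                    q.2 ^ 2 = q.1 ^ 3 + (a : ZMod p) * q.1 + (b : ZMod p)} : ℂ))
                    * (p : ℂ) ^ (-s) + (p : ℂ) ^ (1 - 2 * s))⁻¹
              else 1)
            (F s)) ∧ ∃ c : ℂ, c ^ 2 = 1 ∧ ∀ z, F z = Λ z * f2 c z := by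
  classical
  set S := Q ∪ P with hSdef
  have hS : ∀ q ∈ S, Gp q := by
    intro q hq
    rcases Finset.mem_union.1 hq with h1 | h1
    · exact Gp.of_inq (hQ q h1)
    · exact Gp.of_spl (hP q h1)
  have hodd : ∀ q ∈ S, ¬ ((q : ℕ) : ℤ) ∣ ((2 : ℕ) : ℤ) := by
    intro q hq h
    have h3 : q ∣ 2 := by exact_mod_cast h
    have h4 := (Nat.prime_dvd_prime_iff_eq (hS q hq).pr Nat.prime_two).1 h3
    have h5 := (hS q hq).m4
    omega
  set c : ℂ := ∏ q ∈ S, qch q ((2 : ℕ) : ℤ) with hc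
  have hc2 : c ^ 2 = 1 := qprod_sq (fun q hq => (hS q hq).pr) hodd
  have hb2 : bc 2 = 1 := bc_two
  have he2 : ec 2 = 2 := by
    unfold ec
    rw [if_neg (by norm_num)]
    norm_num
  refine ⟨fun z => Λ z * f2 c z, hΛ.mul (f2_diff c), ?_, c, hc2, fun z => rfl⟩
  intro s hs
  set g : Nat.Primes → ℂ := fun p => (1 - bc p * ((∏ q ∈ S, qch q (p : ℕ)) * ((p : ℕ) : ℂ) ^ (-s)) +
        ec p * ((∏ q ∈ S, qch q (p : ℕ)) * ((p : ℕ) : ℂ) ^ (-s)) ^ 2)⁻¹ with hg
  have hprod : HasProd g (Λ s) := h2 s (by norm_num at hs ⊢; exact hs)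
  have hg2 : g ⟨2, Nat.prime_two⟩ = (f2 c s)⁻¹ := by
    rw [hg]
    show (1 - bc 2 * ((∏ q ∈ S, qch q ((2 : ℕ) : ℤ)) * ((2 : ℕ) : ℂ) ^ (-s)) +
        ec 2 * ((∏ q ∈ S, qch q ((2 : ℕ) : ℤ)) * ((2 : ℕ) : ℂ) ^ (-s)) ^ 2)⁻¹ = _
    rw [← hc, hb2, he2]
    unfold f2
    push_cast
    ring_nf
  have hone := hasProd_ite_eq (L := SummationFilter.unconditional _) (⟨2, Nat.prime_two⟩ : Nat.Primes) (f2 c s)
  have hmul := hprod.mul hone
  -- the value of the factors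
  set G : ℕ → ℂ := fun p => if p.Prime ∧ ¬ ((p : ℤ) ∣ 2 * (-4 * a ^ 3 - 27 * b ^ 2)) then
                (1 - ((p : ℂ) - (Nat.card {q : ZMod p × ZMod p //
                    q.2 ^ 2 = q.1 ^ 3 + (a : ZMod p) * q.1 + (b : ZMod p)} : ℂ))
                    * (p : ℂ) ^ (-s) + (p : ℂ) ^ (1 - 2 * s))⁻¹
              else 1 with hG
  have hdisc : 2 * (-4 * a ^ 3 - 27 * b ^ 2) = -(2 ^ 9 * 7 ^ 3 * ((∏ q ∈ S, q : ℕ) : ℤ) ^ 6) := by
    rw [hj, ha, hb]
    push_cast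
    ring
  have hbad : ∀ p : ℕ, p.Prime → (((p : ℤ) ∣ 2 * (-4 * a ^ 3 - 27 * b ^ 2)) ↔
      (p = 2 ∨ p = 7 ∨ p ∈ S)) := by
    intro p hp
    have hpp : Prime (p : ℤ) := Nat.prime_iff_prime_int.1 hp
    rw [hdisc, dvd_neg, hpp.dvd_mul, hpp.dvd_mul]
    constructor
    · rintro ((h | h) | h)
      · left
        have := hpp.dvd_of_dvd_pow h
        exact (Nat.prime_dvd_prime_iff_eq hp Nat.prime_two).1 (by exact_mod_cast this)
      · right; left
        have := hpp.dvd_of_dvd_pow h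
        exact (Nat.prime_dvd_prime_iff_eq hp (by norm_num)).1 (by exact_mod_cast this)
      · right; right
        have h3 := hpp.dvd_of_dvd_pow h
        have h4 : p ∣ ∏ q ∈ S, q := by exact_mod_cast h3
        by_contra h5
        exact not_dvd_prod hS hp h5 h4
    · rintro (h | h | h)
      · left; left
        rw [h]
        exact dvd_pow_self _ (by norm_num)
      · left; right
        rw [h]
        exact dvd_pow_self _ (by norm_num)
      · right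
        have h4 : p ∣ ∏ q ∈ S, q := Finset.dvd_prod_of_mem (fun q => q) h
        have h5 : (p : ℤ) ∣ ((∏ q ∈ S, q : ℕ) : ℤ) := by exact_mod_cast h4
        exact dvd_pow h5 (by norm_num)
  have hval : ∀ p : Nat.Primes, g p * (if p = (⟨2, Nat.prime_two⟩ : Nat.Primes) then f2 c s else 1) =
      G (p : ℕ) := by
    intro p
    by_cases hp2 : p = (⟨2, Nat.prime_two⟩ : Nat.Primes)
    · rw [if_pos hp2, hp2, hg2]
      have h0 : f2 c s ≠ 0 := f2_ne hc2 (by norm_num at hs ⊢; linarith)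
      rw [inv_mul_cancel₀ h0, hG]
      show (1 : ℂ) = if _ then _ else _
      rw [if_neg]
      rintro ⟨-, h3⟩
      exact h3 ((hbad 2 Nat.prime_two).2 (Or.inl rfl))
    · rw [if_neg hp2, mul_one]
      have hpn2 : (p : ℕ) ≠ 2 := fun h => hp2 (Subtype.ext h)
      by_cases hp7 : (p : ℕ) = 7
      · rw [hG]
        show _ = if _ then _ else _
        rw [if_neg fun h => h.2 ((hbad p p.2).2 (Or.inr (Or.inl hp7))), hg]
        have hb7 : bc 7 = 0 := by
          have := bc_seven 0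
          rwa [zero_add, pow_one] at this
        have he7 : ec 7 = 0 := by unfold ec; rw [if_pos rfl]
        show (1 - bc (p : ℕ) * _ + ec (p : ℕ) * _)⁻¹ = 1
        rw [hp7, hb7, he7, zero_mul, zero_mul, sub_zero, add_zero, inv_one]
      by_cases hpS : (p : ℕ) ∈ S
      · rw [hG]
        show _ = if _ then _ else _
        rw [if_neg fun h => h.2 ((hbad p p.2).2 (Or.inr (Or.inr hpS))), hg]
        have he0 : ∏ q ∈ S, qch q (p : ℕ) = 0 := by
          refine Finset.prod_eq_zero hpS ?_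
          rcases qch_val p.2 ((p : ℕ) : ℤ) with h | h
          · exact h.2
          · exact absurd dvd_rfl h.1
        show (1 - bc (p : ℕ) * ((∏ q ∈ S, qch q (p : ℕ)) * _) +
          ec (p : ℕ) * ((∏ q ∈ S, qch q (p : ℕ)) * _) ^ 2)⁻¹ = 1
        rw [he0]
        norm_num
      · rw [hG]
        show _ = if _ then _ else _
        rw [if_pos ⟨p.2, fun h => by
          rcases (hbad p p.2).1 h with h | h | h
          · exact hpn2 h
          · exact hp7 h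
          · exact hpS h⟩, hg]
        have ht := trace_short hS hj p.2 hpn2 hp7 hpS
        rw [ha, hb, ht]
        have hsq : (∏ q ∈ S, qch q (p : ℕ)) ^ 2 = 1 := by
          refine qprod_sq (fun q hq => (hS q hq).pr) fun q hq hd => ?_
          have h1 : q ∣ (p : ℕ) := by exact_mod_cast hd
          exact hpS (((Nat.prime_dvd_prime_iff_eq (hS q hq).pr p.2).1 h1) ▸ hq)
        have hec : ec (p : ℕ) = ((p : ℕ) : ℂ) := by unfold ec; rw [if_neg hp7]
        have hp0 : ((p : ℕ) : ℂ) ≠ 0 := by exact_mod_cast p.2.ne_zero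
        have e1 : ((p : ℕ) : ℂ) ^ (1 - 2 * s) = ((p : ℕ) : ℂ) * (((p : ℕ) : ℂ) ^ (-s)) ^ 2 := by
          rw [sub_eq_add_neg, Complex.cpow_add _ _ hp0, Complex.cpow_one, ← Complex.cpow_nat_mul]
          congr 2
          push_cast
          ring
        show (1 - bc (p : ℕ) * ((∏ q ∈ S, qch q (p : ℕ)) * ((p : ℕ) : ℂ) ^ (-s)) +
          ec (p : ℕ) * ((∏ q ∈ S, qch q (p : ℕ)) * ((p : ℕ) : ℂ) ^ (-s)) ^ 2)⁻¹ = _
        rw [e1, hec, mul_pow, hsq, one_mul]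
        congr 1
        ring
  have h3 : HasProd (G ∘ ((↑) : {p : ℕ | p.Prime} → ℕ)) (Λ s * f2 c s) := by
    refine (congrArg (fun g => HasProd g (Λ s * f2 c s)) (funext fun p => ?_)).mp hmul
    exact hval p
  exact (hasProd_subtype_iff_of_mulSupport_subset (by
      intro n hn
      rw [Function.mem_mulSupport] at hn
      by_contra h3
      exact hn (if_neg fun h => h3 h.1))).1 h3

end Pool.Agent.X99.C49
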