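import Mathlib
import Pool.Agent.X99.C49.LF

/-!
# The rank form and the exact proportion for the twists of `X_0(49)`, in terms of `D`
-/

set_option autoImplicit false
set_option linter.unusedSectionVars false
set_option linter.style.haveILetI false

open Finset

namespace Pool.Agent.X99.C49

open Pool.Agent.TH841.SH.D (Sha)
open Pool.Agent.Y698 Pool.Agent.Y698.SG
open Pool.Agent.Y700 (VR EQ)
open Pool.Agent.Y668 (Wt)
open Pool.Agent.Z702 (WZ)

/-- the short model -/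
def ES (M : ℤ) : WeierstrassCurve ℚ :=
  { a₁ := 0, a₂ := 0, a₃ := 0, a₄ := ((-35 * M ^ 2 : ℤ) : ℚ), a₆ := ((-98 * M ^ 3 : ℤ) : ℚ) }

theorem vrS (M : ℤ) :
    VR (Wt ((21 * M : ℤ) : ℚ) ((112 * M ^ 2 : ℤ) : ℚ)) (ES M) 1 (-7 * M) 0 0 := by
  refine ⟨one_ne_zero, ?_, ?_, ?_, ?_, ?_⟩
  · show (1 : ℚ) * 0 = 0 + 2 * 0
    norm_num
  · show (1 : ℚ) ^ 2 * 0 = ((21 * M : ℤ) : ℚ) - 0 * 0 + 3 * (-7 * M) - 0 ^ 2
    push_cast
    ring
  · show (1 : ℚ) ^ 3 * 0 = 0 + (-7 * M) * 0 + 2 * 0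
    norm_num
  · show (1 : ℚ) ^ 4 * ((-35 * M ^ 2 : ℤ) : ℚ) = ((112 * M ^ 2 : ℤ) : ℚ) - 0 * 0 +
      2 * (-7 * M) * ((21 * M : ℤ) : ℚ) - (0 + (-7 * M) * 0) * 0 + 3 * (-7 * (M : ℚ)) ^ 2 - 2 * 0 * 0
    push_cast
    ring
  · show (1 : ℚ) ^ 6 * ((-98 * M ^ 3 : ℤ) : ℚ) = 0 + (-7 * M) * ((112 * M ^ 2 : ℤ) : ℚ) +
      (-7 * M) ^ 2 * ((21 * M : ℤ) : ℚ) + (-7 * (M : ℚ)) ^ 3 - 0 * 0 - 0 ^ 2 - (-7 * M) * 0 * 0
    push_cast
    ring

theorem disS {M : ℤ} (hM : M ≠ 0) : (ES M).Δ ≠ 0 := by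
  have e : (ES M).Δ = -(2 ^ 12 * 343) * (M : ℚ) ^ 6 := by
    unfold ES WeierstrassCurve.Δ WeierstrassCurve.b₈ WeierstrassCurve.b₆ WeierstrassCurve.b₄
      WeierstrassCurve.b₂
    push_cast
    ring
  rw [e]
  exact mul_ne_zero (by norm_num) (pow_ne_zero 6 (by exact_mod_cast hM))

/-- the two models -/
theorem short_iff {M : ℤ} (h4 : M % 4 = 1) :
    (Finite (ES M).toAffine.Point ∧ ∀ x : Sha (ES M), x + x = 0 → x = 0) ↔
      (Finite (EQ (W49 M)).toAffine.Point ∧ ∀ x : Sha (EQ (W49 M)), x + x = 0 → x = 0) := by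
  have hM0 : M ≠ 0 := by omega
  obtain ⟨a1, a2, -⟩ := trn h4
  obtain ⟨b1, b2, -⟩ := Pool.Agent.Z702.f_TRN _ _ _ _ _ _ (vrS M) (disS hM0)
  rw [← a1, ← a2]
  exact and_congr b1.symm b2.symm

/-- `1` modulo `4` -/
theorem fam4 {D : ℕ} (h : Fam D) : D % 4 = 1 := by
  rw [← Mn_eq h]
  exact prod_mod_four fun q hq => ((dat h).pr q hq).2

theorem inq {D : ℕ} (h : Fam D) : ∀ q ∈ IP D, Inq q := fun q hq =>
  ⟨((dat h).hQ q hq).1, ((dat h).hQ q hq).2.1, ((dat h).hQ q hq).2.2⟩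

theorem spl {D : ℕ} (h : Fam D) : ∀ p ∈ SPr D, Spl p := fun q hq =>
  ⟨((dat h).hP q hq).1, ((dat h).hP q hq).2.1, ((dat h).hP q hq).2.2⟩

/-- **the criterion** -/
theorem crit {D : ℕ} (h : Fam D) :
    (Finite (ES D).toAffine.Point ∧ ∀ x : Sha (ES D), 2 • x = 0 → x = 0) ↔
      Pool.Agent.X99.GQ.Gd P28 n4 D.primeFactors := by
  have h4 : (D : ℤ) % 4 = 1 := by
    have := fam4 h
    omega
  rw [gd_iff h, equiv (dat h), Mn_eq h, ← short_iff h4]
  refine and_congr Iff.rfl (forall_congr' fun x => ?_)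
  rw [two_nsmul]

/-- **the rank form** -/
theorem bsd {D : ℕ} (h : Fam D)
    (hg : Pool.Agent.X99.GQ.Gd P28 n4 D.primeFactors) :
    Pool.Agent.Y687.RankBSD (-35 * (D : ℤ) ^ 2) (-98 * (D : ℤ) ^ 3) := by
  obtain ⟨hfin, -⟩ := (crit h).2 hg
  have hdet := (gd_iff h).1 hg
  obtain ⟨j, hj⟩ : ∃ j, D = 1 + 4 * j := ⟨D / 4, by have := fam4 h; omega⟩
  have hprod : ∏ q ∈ IP D ∪ SPr D, q = 1 + 4 * j := by
    rw [← hj]
    exact Mn_eq h
  obtain ⟨Λ, h1, h2, h3, h5⟩ := level_Q (inq h) (spl h) hprod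
  have hD' : (D : ℤ) = 1 + 4 * j := by rw [hj]; push_cast; ring
  obtain ⟨F, k1, k2, c, hc, k3⟩ := rank_form (inq h) (spl h) hprod h1 h2 (-35 * (D : ℤ) ^ 2)
    (-98 * (D : ℤ) ^ 3) (by rw [hD']) (by rw [hD'])
  have hΛ1 : Λ 1 ≠ 0 := by
    intro h0
    refine exists_val2 fun Γ _ v hv => ?_
    have h6 := ((h5 Γ v hv).2).2 hdet
    rw [h0] at h6
    unfold Pool.Agent.Y698.SG.quoT at h6
    rw [zero_mul, zero_mul, zero_div, map_zero] at h6
    exact zero_ne_one h6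
  refine ⟨F, k1, k2, ?_, ?_⟩
  · refine (k1.analyticAt 1).analyticOrderAt_eq_zero.2 ?_
    rw [k3]
    exact mul_ne_zero hΛ1 (f2_one hc)
  · exact Pool.Agent.Y687.finrank_zero_of_finite hfin

/-- **the exact proportion** -/
theorem prop : Filter.Tendsto
    (fun X : ℕ => open Classical in (((Icc 1 X).filter fun D : ℕ => Fam D ∧
        (Finite (ES D).toAffine.Point ∧ ∀ x : Sha (ES D), 2 • x = 0 → x = 0)).card : ℝ) /
      (((Icc 1 X).filter fun D : ℕ => Fam D).card : ℝ))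
    Filter.atTop (nhds (∏' i : ℕ, (1 - (1 / 2 : ℝ) ^ (2 * i + 1)))) := by
  classical
  have h := den28 n4
  unfold Pool.Agent.Y703.CQ.c2 at h
  refine h.congr fun X => congrArg₂ (fun a b : ℕ => (a : ℝ) / (b : ℝ)) ?_ ?_
  · refine congrArg Finset.card (Finset.ext fun D => ?_)
    refine (Finset.mem_filter).trans (Iff.trans ?_ (Finset.mem_filter).symm)
    refine and_congr_right fun _ => ?_
    rw [← and_assoc, fam_iff]
    exact and_congr_right fun hD => (crit hD).symm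
  · refine congrArg Finset.card (Finset.ext fun D => ?_)
    refine (Finset.mem_filter).trans (Iff.trans ?_ (Finset.mem_filter).symm)
    exact and_congr_right fun _ => fam_iff D

/-- odd squarefree sums of two squares -/
theorem fam_two (D : ℕ) : (Squarefree D ∧ Odd D ∧ ∃ x y : ℕ, D = x ^ 2 + y ^ 2) ↔ Fam D := by
  unfold Fam
  refine and_congr_right fun hD => ?_
  rw [Nat.eq_sq_add_sq_iff]
  constructor
  · rintro ⟨ho, h⟩ p hp hpD
    have h1 : p % 4 ≠ 3 := by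
      intro h3
      have h4 := h _ (Nat.mem_primeFactors.2 ⟨hp, hpD, hD.ne_zero⟩) h3
      have h5 : padicValNat p D = 1 := by
        have : Fact p.Prime := ⟨hp⟩
        apply le_antisymm
        · have h6 := hD.natFactorization_le_one p
          rwa [Nat.factorization_def D hp] at h6
        · exact one_le_padicValNat_of_dvd hD.ne_zero hpD
      rw [h5] at h4
      exact absurd h4 (by decide)
    have h2 : p % 2 = 1 := by
      rcases hp.eq_two_or_odd with h | h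
      · rw [h] at hpD
        obtain ⟨k, hk⟩ := ho
        obtain ⟨l, hl⟩ := hpD
        omega
      · exact h
    omega
  · intro h
    refine ⟨?_, fun q hq h3 => ?_⟩
    · by_contra hne
      rw [Nat.not_odd_iff_even] at hne
      have := h 2 Nat.prime_two hne.two_dvd
      omega
    · obtain ⟨hq1, hq2, -⟩ := Nat.mem_primeFactors.1 hq
      have := h q hq1 hq2
      omega

end Pool.Agent.X99.C49
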