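import Mathlib
import Pool.Agent.X99.C49.Fin

/-!
# The formula modulo two over `ℚ` for the twists of `X_0(49)`, in terms of `D`
-/

set_option autoImplicit false
set_option linter.unusedSectionVars false
set_option linter.style.haveILetI false

open Finset

namespace Pool.Agent.X99.C49

open Pool.Agent.TH841.SH.D (Sha)
open Pool.Agent.Y698 Pool.Agent.Y698.SG
open Pool.Agent.Y700 (VR EQ)
open NumberField IsDedekindDomain WeierstrassCurve Pool.Agent.W189.NF IsCyclotomicExtension.Rat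
open Pool.Agent.H921R2.TatePole Pool.Agent.H82R3.EK
open H667R3 Pool.Agent.W192.HK Pool.Agent.TH936.CM Pool.Agent.TH936.PU

section
variable {r : ℕ} [hr : Fact r.Prime] (M : Type) [Field M] [NumberField M]
  [hM : IsCyclotomicExtension {r} ℚ M] (K : Type) [Field K] [NumberField K] [Algebra K M]

include hM in
open Classical in
/-- the product of the Tamagawa numbers -/
theorem tam_zero (hir : Inq r) (hn : Module.finrank ℚ K = 1) {Q P : Finset ℕ}
    (hQ : ∀ q ∈ Q, Inq q ∧ q ≠ r) (hP : ∀ p ∈ P, Spl p) {j : ℕ}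
    (hj : ∏ q ∈ Q ∪ P, q = 1 + 4 * j) :
    ∏ᶠ v : HeightOneSpectrum (𝓞 K), tam (AX K j) v = 2 ^ (1 + (Q.card + 2 * P.card)) := by
  classical
  have hG : IsGalois ℚ K := isGalK r K (M := M)
  have hn' : Module.finrank ℚ K = 2 ^ 0 := by rw [hn, pow_zero]
  have hPr : ∀ p ∈ P, p ≠ r := by
    rintro p hp rfl
    exact hir.ns (hP p hp).sq
  have htam := Pool.Agent.Y890.SG.t_TAM r M K 0 hn' hir Q P j hQ hP hj
  have hX : Nat.card (XK r M K) = 1 := by rw [card_XK, hn]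
  have hfin : Finite (XK r M K) := Nat.finite_of_card_ne_zero (by rw [hX]; norm_num)
  have hE : ∑ᶠ χ : XK r M K, Gx.mx Q P (χ : DirichletCharacter ℂ r) = Q.card + 2 * P.card := by
    have hone : ∀ χ : XK r M K, χ = 1 := by
      intro χ
      have h1 : χ ^ Nat.card (XK r M K) = 1 := pow_card_eq_one'
      rw [hX, pow_one] at h1
      exact h1
    have hun : ∀ q : ℕ, q.Prime → q ≠ r → IsUnit (q : ZMod r) := by
      intro q hq hne
      exact (ZMod.isUnit_iff_coprime q r).2 ((Nat.coprime_primes hq hr.out).2 hne)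
    rw [finsum_eq_single _ (1 : XK r M K) (fun χ h => absurd (hone χ) h)]
    have e1 : ((1 : XK r M K) : DirichletCharacter ℂ r) = 1 := rfl
    unfold Gx.mx
    rw [e1, Finset.filter_true_of_mem, Finset.filter_true_of_mem]
    · intro p hp
      exact MulChar.one_apply (hun p (hP p hp).pr (hPr p hp))
    · intro q hq
      rw [MulChar.one_apply (hun q (hQ q hq).1.pr (hQ q hq).2), one_pow]
  rw [hE] at htam
  exact htam

end

/-- **all local and global data over `ℚ`** -/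
theorem data_Q {Q P : Finset ℕ} (hQ : ∀ q ∈ Q, Inq q) (hP : ∀ p ∈ P, Spl p) {j : ℕ}
    (hj : ∏ q ∈ Q ∪ P, q = 1 + 4 * j) :
    (∀ v : HeightOneSpectrum (𝓞 ℚ), MinimalAt (AX ℚ j) v) ∧
    (∃ m : ℕ, Odd m ∧ tnum (AX ℚ j) = 2 * m) ∧
    ∏ᶠ v : HeightOneSpectrum (𝓞 ℚ), tam (AX ℚ j) v = 2 ^ (1 + (Q.card + 2 * P.card)) := by
  obtain ⟨r, hr, hrS⟩ := exists_inq (Q ∪ P)
  have : Fact r.Prime := ⟨hr.pr⟩
  have : NeZero r := ⟨hr.pr.ne_zero⟩
  have : NeZero ((r : ℕ) : ℚ) := ⟨by exact_mod_cast hr.pr.ne_zero⟩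
  have : IsCyclotomicExtension {r} ℚ (CyclotomicField r ℚ) :=
    CyclotomicField.isCyclotomicExtension r ℚ
  have hgp : ∀ q ∈ Q ∪ P, Gp q ∧ q ≠ r := by
    intro q hq
    refine ⟨?_, fun h => hrS (h ▸ hq)⟩
    rcases Finset.mem_union.1 hq with h1 | h1
    · exact Gp.of_inq (hQ q h1)
    · exact Gp.of_spl (hP q h1)
  refine ⟨fun v => minimal_E (CyclotomicField r ℚ) ℚ hr.ns hgp hj v,
    tnum_AX (CyclotomicField r ℚ) ℚ hr.ns j, ?_⟩
  exact tam_zero (CyclotomicField r ℚ) ℚ hr (Module.finrank_self ℚ)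
    (fun q hq => ⟨hQ q hq, fun h => hrS (h ▸ mem_union_left _ hq)⟩) hP hj

/-- the 2-primary part of `Ш` -/
theorem sha2_zero {D : ℕ} (h : Fam D) (hg : Pool.Agent.X99.GQ.Gd P28 n4 D.primeFactors) (n : ℕ)
    (x : Sha (EQ (W49 D))) (hx : 2 ^ n • x = 0) : x = 0 := by
  have hdet := (gd_iff h).1 hg
  have h1 := (alg (dat h) ((det_iff (dat h).disj).1 hdet)).1 n
  rw [Mn_eq h] at h1
  exact h1 x hx

/-- the criterion for the minimal equation -/
theorem crit' {D : ℕ} (h : Fam D) :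
    (Finite (EQ (W49 D)).toAffine.Point ∧ ∀ x : Sha (EQ (W49 D)), x + x = 0 → x = 0) ↔
      Pool.Agent.X99.GQ.Gd P28 n4 D.primeFactors := by
  rw [gd_iff h, equiv (dat h), Mn_eq h]

end Pool.Agent.X99.C49
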