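import Mathlib
import Pool.Agent.X99.GJ.Pat
import Pool.Agent.X99.C49.Fin2

/-!
# The joint law for the twists of `X_0(49)` by sums of two squares
-/

set_option autoImplicit false
set_option linter.unusedSectionVars false
set_option linter.style.haveILetI false

open Finset

namespace Pool.Agent.X99.C49

open Pool.Agent.X99.GQ (Par Ok HAL Cl Gd)
open Pool.Agent.X99.GJ (star star_pf pattern_num fc)
open Pool.Agent.Y703.CQ (c2)

/-- the family is closed under twisting -/
theorem fam_star {m D : ℕ} (hm : Fam m) (hD : Fam D) : Fam (star m D) := by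
  obtain ⟨h1, h2, -⟩ := star_pf hm.1 hD.1
  refine ⟨h1, fun p hp hpd => ?_⟩
  have h3 : p ∈ (star m D).primeFactors := Nat.mem_primeFactors.2 ⟨hp, hpd, h1.ne_zero⟩
  rw [h2, Finset.mem_symmDiff] at h3
  rcases h3 with h3 | h3
  · exact hD.2 p hp (Nat.dvd_of_mem_primeFactors h3.1)
  · exact hm.2 p hp (Nat.dvd_of_mem_primeFactors h3.1)

theorem cop28 {m : ℕ} (hm : Fam m) : Squarefree m ∧ ∀ p : ℕ, p.Prime → p ∣ m →
    Nat.Coprime p P28.N := by
  refine ⟨hm.1, fun p hp hpm => ?_⟩
  have h4 := hm.2 p hp hpm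
  show Nat.Coprime p 28
  have h1 : Nat.Coprime p (2 ^ 2 * 7) := by
    refine Nat.Coprime.mul_right ?_ ?_
    · refine Nat.Coprime.pow_right 2 ?_
      rw [Nat.coprime_primes hp Nat.prime_two]
      rintro rfl
      exact absurd h4 (by decide)
    · rw [Nat.coprime_primes hp (by norm_num)]
      rintro rfl
      exact absurd h4 (by decide)
  exact h1

open Classical in
/-- **the joint law** for any property equivalent to the criterion -/
theorem joint28 (Q : ℕ → Prop) (hQ : ∀ D : ℕ, Fam D → (Q D ↔ Gd P28 n4 D.primeFactors))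
    (G K : Finset ℕ) (hG : ∀ m ∈ G, Fam m) (hK : ∀ m ∈ K, Fam m) (hd : Disjoint G K) :
    Filter.Tendsto (fun X : ℕ => (((Icc 1 X).filter fun D => Fam D ∧ (∀ m ∈ G, Q (star m D)) ∧
        ∀ m ∈ K, ¬ Q (star m D)).card : ℝ) / (((Icc 1 X).filter fun D => Fam D).card : ℝ))
      Filter.atTop (nhds (c2 ^ G.card * (1 - c2) ^ K.card)) := by
  have e1 : Pool.Agent.X99.GQ.al P28 = 1 / 4 := by
    unfold Pool.Agent.X99.GQ.al
    have h1 : P28.A.card = 3 := by decide
    have h2 : Nat.totient P28.N = 12 := by decide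
    rw [h1, h2]
    norm_num
  have hp := pattern_num ok28 (h := 1 / 2 ^ (Fintype.card (Fin 2) + 1)) (by positivity)
    (Pool.Agent.X99.GQ.Ha.t_HAL ok28 rc28) (by rw [e1, Fintype.card_fin]; norm_num) n4 G K
    (fun m hm => cop28 (hG m hm)) (fun m hm => cop28 (hK m hm)) hd
  refine hp.congr fun X => congrArg₂ (fun a b : ℕ => (a : ℝ) / (b : ℝ)) ?_ ?_
  · refine fc _ fun D _ => ?_
    rw [fam_iff]
    refine and_congr_right fun hD => ?_
    refine and_congr (forall_congr' fun m => forall_congr' fun hm => ?_)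
      (forall_congr' fun m => forall_congr' fun hm => ?_)
    · rw [hQ _ (fam_star (hG m hm) hD)]
    · rw [hQ _ (fam_star (hK m hm) hD)]
  · exact fc _ fun D _ => fam_iff D

end Pool.Agent.X99.C49
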