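import Mathlib

/-!
# The matrix of the twists of `X_0(49)` and its kernel
-/

set_option autoImplicit false
set_option linter.style.haveILetI false

open Finset

namespace Pool.Agent.X99.C49

open Classical in
/-- `1` if `m` is not a square modulo `p`, and `0` if it is -/
noncomputable def nq (p m : ℕ) : ZMod 2 := if IsSquare (m : ZMod p) then 0 else 1

open Classical in
/-- `1` if `-7` is not a fourth power modulo `p`, and `0` if it is -/
noncomputable def n4 (p : ℕ) : ZMod 2 := if ∃ y : ZMod p, y ^ 4 = -7 then 0 else 1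

/-- the matrix -/
noncomputable def mat (Q P : Finset ℕ) : Matrix P P (ZMod 2) := Matrix.of fun i j =>
  if i = j then n4 i + ∑ q ∈ Q, nq i q + ∑ p ∈ P.erase i, nq i p else nq i j

/-- the conditions on the primes -/
structure Dat (Q P : Finset ℕ) : Prop where
  hQ : ∀ q ∈ Q, q.Prime ∧ q % 4 = 1 ∧ ¬ IsSquare (-7 : ZMod q)
  hP : ∀ p ∈ P, p.Prime ∧ p % 4 = 1 ∧ IsSquare (-7 : ZMod p)

theorem Dat.disj {Q P : Finset ℕ} (h : Dat Q P) : Disjoint Q P := by
  rw [Finset.disjoint_left]
  intro q h1 h2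
  exact (h.hQ q h1).2.2 (h.hP q h2).2.2

theorem Dat.pr {Q P : Finset ℕ} (h : Dat Q P) : ∀ q ∈ Q ∪ P, q.Prime ∧ q % 4 = 1 := by
  intro q hq
  rcases Finset.mem_union.1 hq with h1 | h1
  · exact ⟨(h.hQ q h1).1, (h.hQ q h1).2.1⟩
  · exact ⟨(h.hP q h1).1, (h.hP q h1).2.1⟩

/-- `J` is the support of a kernel vector -/
def Ker (Q P J : Finset ℕ) : Prop := J ⊆ P ∧ (∀ p ∈ P \ J, ∑ q ∈ J, nq p q = 0) ∧
  ∀ p ∈ J, n4 p + ∑ l ∈ (Q ∪ P) \ J, nq p l = 0

theorem z2_double (a : ZMod 2) : a + a = 0 := by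
  revert a; decide

open Classical in
theorem mulVec_ind {Q P : Finset ℕ} (h : Disjoint Q P) {J : Finset ℕ} (hJ : J ⊆ P) (i : P) :
    (mat Q P).mulVec (fun j : P => if (j : ℕ) ∈ J then 1 else 0) i =
      if (i : ℕ) ∈ J then n4 i + ∑ l ∈ (Q ∪ P) \ J, nq i l else ∑ q ∈ J, nq i q := by
  set dg : ZMod 2 := n4 i + ∑ q ∈ Q, nq i q + ∑ p ∈ P.erase i, nq i p with hdg
  have e1 : (mat Q P).mulVec (fun j : P => if (j : ℕ) ∈ J then 1 else 0) i =
      ∑ j ∈ J, (if (i : ℕ) = j then dg else nq i j) := by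
    unfold Matrix.mulVec dotProduct mat
    have e2 : ∀ j : P, (Matrix.of (fun i j : P => if i = j then
        n4 i + ∑ q ∈ Q, nq i q + ∑ p ∈ P.erase i, nq i p else nq i j) i j) *
        (if (j : ℕ) ∈ J then (1 : ZMod 2) else 0) =
        (fun k : ℕ => (if (i : ℕ) = k then dg else nq i k) * if k ∈ J then (1 : ZMod 2) else 0)
          (j : ℕ) := by
      intro j
      simp only [Matrix.of_apply, Subtype.ext_iff]
      by_cases hij : (i : ℕ) = (j : ℕ)
      · rw [if_pos hij]
      · rw [if_neg hij]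
    rw [Finset.sum_congr rfl fun j _ => e2 j,
      Finset.sum_coe_sort P (fun k : ℕ => (if (i : ℕ) = k then dg else nq i k) *
        if k ∈ J then (1 : ZMod 2) else 0)]
    rw [← Finset.sum_subset hJ]
    · refine Finset.sum_congr rfl fun k hk => ?_
      rw [if_pos hk, mul_one]
    · intro k _ hk
      rw [if_neg hk, mul_zero]
  rw [e1]
  by_cases hi : (i : ℕ) ∈ J
  · rw [if_pos hi, ← Finset.add_sum_erase J _ hi, if_pos rfl]
    have e3 : ∑ x ∈ J.erase i, (if (i : ℕ) = x then dg else nq i x) = ∑ x ∈ J.erase i, nq i x := by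
      refine Finset.sum_congr rfl fun k hk => ?_
      rw [if_neg (Finset.ne_of_mem_erase hk).symm]
    have e4 : P.erase (i : ℕ) = J.erase i ∪ (P \ J) := by
      ext k
      simp only [Finset.mem_erase, Finset.mem_union, Finset.mem_sdiff]
      constructor
      · rintro ⟨h1, h2⟩
        by_cases hk : k ∈ J
        · exact Or.inl ⟨h1, hk⟩
        · exact Or.inr ⟨h2, hk⟩
      · rintro (⟨h1, h2⟩ | ⟨h1, h2⟩)
        · exact ⟨h1, hJ h2⟩
        · refine ⟨?_, h1⟩
          rintro rfl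
          exact h2 hi
    have e5 : Disjoint (J.erase (i : ℕ)) (P \ J) := by
      rw [Finset.disjoint_left]
      intro k h1 h2
      exact (Finset.mem_sdiff.1 h2).2 (Finset.mem_of_mem_erase h1)
    have e6 : (Q ∪ P) \ J = Q ∪ (P \ J) := by
      ext k
      simp only [Finset.mem_union, Finset.mem_sdiff]
      constructor
      · rintro ⟨h1 | h1, h2⟩
        · exact Or.inl h1
        · exact Or.inr ⟨h1, h2⟩
      · rintro (h1 | ⟨h1, h2⟩)
        · exact ⟨Or.inl h1, fun h2 => Finset.disjoint_left.1 h h1 (hJ h2)⟩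
        · exact ⟨Or.inr h1, h2⟩
    have e7 : Disjoint Q (P \ J) := h.mono_right Finset.sdiff_subset
    rw [e3, hdg, e4, Finset.sum_union e5, e6, Finset.sum_union e7]
    have e8 := z2_double (∑ x ∈ J.erase (i : ℕ), nq i x)
    linear_combination e8
  · rw [if_neg hi]
    refine Finset.sum_congr rfl fun k hk => ?_
    rw [if_neg]
    rintro rfl
    exact hi hk

/-- the matrix is nonsingular if and only if it has no kernel vector -/
theorem det_iff {Q P : Finset ℕ} (h : Disjoint Q P) :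
    (mat Q P).det ≠ 0 ↔ ∀ J, Ker Q P J → J = ∅ := by
  classical
  rw [Ne, ← Matrix.exists_mulVec_eq_zero_iff]
  constructor
  · intro h1 J hJ
    by_contra hne
    obtain ⟨p, hp⟩ := Finset.nonempty_iff_ne_empty.2 hne
    apply h1
    refine ⟨fun j : P => if (j : ℕ) ∈ J then 1 else 0, ?_, ?_⟩
    · intro h0
      have h2 := congrFun h0 ⟨p, hJ.1 hp⟩
      simp only [Pi.zero_apply] at h2
      rw [if_pos hp] at h2
      exact one_ne_zero h2
    · funext i
      rw [mulVec_ind h hJ.1]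
      by_cases hi : (i : ℕ) ∈ J
      · rw [if_pos hi]
        exact hJ.2.2 i hi
      · rw [if_neg hi]
        exact hJ.2.1 i (Finset.mem_sdiff.2 ⟨i.2, hi⟩)
  · rintro h1 ⟨v, hv0, hv⟩
    set J : Finset ℕ := P.filter fun p => ∃ hp : p ∈ P, v ⟨p, hp⟩ = 1 with hJd
    have hJP : J ⊆ P := Finset.filter_subset _ _
    have hvJ : v = fun j : P => if (j : ℕ) ∈ J then 1 else 0 := by
      funext j
      have h2 : v j = 0 ∨ v j = 1 := by
        generalize v j = t
        revert t
        decide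
      by_cases hj : (j : ℕ) ∈ J
      · rw [if_pos hj]
        obtain ⟨hp, h3⟩ := (Finset.mem_filter.1 hj).2
        exact h3
      · rw [if_neg hj]
        rcases h2 with h2 | h2
        · exact h2
        · exact absurd (Finset.mem_filter.2 ⟨j.2, j.2, h2⟩) hj
    have hK : Ker Q P J := by
      refine ⟨hJP, ?_, ?_⟩
      · intro p hp
        obtain ⟨hp1, hp2⟩ := Finset.mem_sdiff.1 hp
        have h3 := congrFun hv ⟨p, hp1⟩
        rw [hvJ, mulVec_ind h hJP, if_neg hp2] at h3
        exact h3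
      · intro p hp
        have h3 := congrFun hv ⟨p, hJP hp⟩
        rw [hvJ, mulVec_ind h hJP, if_pos hp] at h3
        exact h3
    apply hv0
    rw [hvJ, h1 J hK]
    funext j
    simp

section

variable {p : ℕ} [hp : Fact p.Prime]

theorem nq_zero {m : ℕ} : nq p m = 0 ↔ IsSquare (m : ZMod p) := by
  unfold nq
  by_cases h : IsSquare (m : ZMod p)
  · simp [h]
  · simp [h]

theorem n4_zero : n4 p = 0 ↔ ∃ y : ZMod p, y ^ 4 = -7 := by
  unfold n4
  by_cases h : ∃ y : ZMod p, y ^ 4 = -7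
  · simp [h]
  · simp [h]

theorem sq_mul_iff {a b : ZMod p} (ha : a ≠ 0) (hb : b ≠ 0) :
    IsSquare (a * b) ↔ (IsSquare a ↔ IsSquare b) := by
  have h1 := quadraticChar_one_iff_isSquare (mul_ne_zero ha hb)
  have h2 := quadraticChar_one_iff_isSquare ha
  have h3 := quadraticChar_one_iff_isSquare hb
  rw [← h1, ← h2, ← h3, map_mul]
  rcases quadraticChar_dichotomy ha with h4 | h4 <;> rcases quadraticChar_dichotomy hb with h5 | h5 <;>
    rw [h4, h5] <;> decide

theorem z2_add (a b : ZMod 2) : a + b = 0 ↔ (a = 0 ↔ b = 0) := by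
  revert a b; decide

theorem prod_ne {S : Finset ℕ} (hS : ∀ q ∈ S, q.Prime ∧ q ≠ p) :
    ((∏ q ∈ S, q : ℕ) : ZMod p) ≠ 0 := by
  rw [Ne, ZMod.natCast_eq_zero_iff, Prime.dvd_finsetProd_iff hp.out.prime]
  rintro ⟨q, hq, hd⟩
  exact (hS q hq).2 ((Nat.prime_dvd_prime_iff_eq hp.out (hS q hq).1).1 hd).symm

theorem prod_sq {S : Finset ℕ} (hS : ∀ q ∈ S, q.Prime ∧ q ≠ p) :
    IsSquare ((∏ q ∈ S, q : ℕ) : ZMod p) ↔ ∑ q ∈ S, nq p q = 0 := by
  classical
  induction S using Finset.induction_on with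
  | empty => simp
  | insert q S hq ih =>
    have h1 : ∀ q ∈ S, q.Prime ∧ q ≠ p := fun r hr => hS r (Finset.mem_insert_of_mem hr)
    have h2 := hS q (Finset.mem_insert_self q S)
    rw [Finset.prod_insert hq, Finset.sum_insert hq, Nat.cast_mul, z2_add, ← ih h1, nq_zero]
    refine sq_mul_iff ?_ (prod_ne h1)
    have := prod_ne (p := p) (S := {q}) (by
      intro r hr
      rw [Finset.mem_singleton] at hr
      rw [hr]
      exact h2)
    simpa using this

end

end Pool.Agent.X99.C49
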