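import Pool.Agent.X99.C49.SelAB
import Pool.Agent.Z702.LocZ
import Pool.Agent.Z894.LG
import Pool.Agent.Y474.Z.LP

/-!
# Local points from a kernel vector
-/

set_option autoImplicit false
set_option linter.style.haveILetI false

open Finset

namespace Pool.Agent.X99.C49

open Pool.Agent.Z702 (LocI S_LQ padic_sq padic_sq2)

theorem sq_mod7 {p : ℕ} (hp : p.Prime) (h4 : p % 4 = 1) (h7 : IsSquare (-7 : ZMod p)) :
    IsSquare (p : ZMod 7) := by
  have : Fact p.Prime := ⟨hp⟩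
  have : Fact (Nat.Prime 7) := ⟨by norm_num⟩
  have h := seven_sq (p := p) h4 h7
  have h' : IsSquare ((7 : ℕ) : ZMod p) := by exact_mod_cast h
  exact (ZMod.exists_sq_eq_prime_iff_of_mod_four_eq_one h4 (by norm_num)).1 h'

theorem prod_sq7 {J : Finset ℕ} (h : ∀ p ∈ J, IsSquare (p : ZMod 7)) :
    IsSquare ((∏ p ∈ J, p : ℕ) : ZMod 7) := by
  classical
  induction J using Finset.induction_on with
  | empty => simp
  | insert q K hq ih =>
    rw [Finset.prod_insert hq, Nat.cast_mul]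
    exact (h q (Finset.mem_insert_self q K)).mul (ih fun r hr => h r (Finset.mem_insert_of_mem hr))

/-- the place two -/
theorem loc_two {M d : ℤ} (hM : M % 4 = 1) (hd : d % 4 = 1)
    (hq : IsSquare (d : ℚ_[2]) → LocI ℚ_[2] (21 * M) (112 * M ^ 2) d) :
    LocI ℚ_[2] (21 * M) (112 * M ^ 2) d := by
  have hd0 : (d : ℚ_[2]) ≠ 0 := by
    have : d ≠ 0 := by omega
    exact_mod_cast this
  have h : d % 8 = 1 ∨ d % 8 = 5 := by omega
  rcases h with h | h
  · exact hq (padic_sq2 h)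
  · have main : ∀ X c n : ℤ, X % 8 = 5 → (X - 21 * M) ^ 2 - 448 * M ^ 2 = c ^ 2 * n →
        (X * n) % 8 = 1 → LocI ℚ_[2] (21 * M) (112 * M ^ 2) d := by
      intro X c n hX hc hn
      obtain ⟨k, hk⟩ := padic_sq2 (n := X * d) (by rw [Int.mul_emod, hX, h]; norm_num)
      obtain ⟨m, hm⟩ := padic_sq2 (n := X * n) hn
      refine ⟨X, c * m, k / d, ?_, ?_, ?_⟩
      · have : X ≠ 0 := by omega
        exact_mod_cast this
      · have e1 : (((X - 21 * M) ^ 2 - 448 * M ^ 2 : ℤ) : ℚ_[2]) = ((c ^ 2 * n : ℤ) : ℚ_[2]) := by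
          rw [hc]
        push_cast at e1 hm ⊢
        linear_combination (-(c : ℚ_[2]) ^ 2) * hm - (X : ℚ_[2]) * e1
      · push_cast at hk
        field_simp
        linear_combination hk
    have h2 : M % 8 = 1 ∨ M % 8 = 5 := by omega
    have hsq : ∀ a : ℤ, a % 8 = 1 ∨ a % 8 = 5 → (a ^ 2) % 8 = 1 := by
      intro a ha
      rw [pow_two, Int.mul_emod]
      rcases ha with ha | ha <;> rw [ha] <;> norm_num
    have hM2 := hsq M h2
    rcases h2 with h2 | h2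
    · refine main (21 * M + 16) 8 (4 - 7 * M ^ 2) (by omega) (by ring) ?_
      have e1 : (4 - 7 * M ^ 2) % 8 = 5 := by omega
      rw [Int.mul_emod, e1, show (21 * M + 16) % 8 = 5 by omega]
      norm_num
    · refine main (21 * M + 4) 4 (1 - 28 * M ^ 2) (by omega) (by ring) ?_
      have e1 : (1 - 28 * M ^ 2) % 8 = 5 := by omega
      rw [Int.mul_emod, e1, show (21 * M + 4) % 8 = 5 by omega]
      norm_num

/-- the primes which divide `d` -/
theorem loc_P {p : ℕ} [hp : Fact p.Prime] (h4 : p % 4 = 1) (h7 : IsSquare (-7 : ZMod p)) (p7 : p ≠ 7)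
    {M' d' c : ℤ} (hM : ¬ (p : ℤ) ∣ M') (hd : ¬ (p : ℤ) ∣ d') (hc : M' = c * d')
    (hiff : IsSquare (c : ZMod p) ↔ n4 p = 0) :
    LocI ℚ_[p] (21 * (p * M')) (112 * (p * M') ^ 2) (p * d') := by
  have p2 : p ≠ 2 := by rintro rfl; omega
  have h20 : (2 : ZMod p) ≠ 0 := by exact_mod_cast cast_ne0 (p := p) Nat.prime_two p2
  have h70 : (7 : ZMod p) ≠ 0 := by exact_mod_cast cast_ne0 (p := p) (by norm_num : (7 : ℕ).Prime) p7
  have hM0 : (M' : ZMod p) ≠ 0 := by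
    intro h
    rw [ZMod.intCast_zmod_eq_zero_iff_dvd] at h
    exact hM h
  have hd0 : (d' : ZMod p) ≠ 0 := by
    intro h
    rw [ZMod.intCast_zmod_eq_zero_iff_dvd] at h
    exact hd h
  have hc0 : (c : ZMod p) ≠ 0 := by
    intro h
    apply hM0
    rw [hc]
    push_cast
    rw [h, zero_mul]
  obtain ⟨g, hg⟩ : IsSquare (7 : ℤ_[p]) := by
    apply Pool.Agent.Y474.Z.sq_of p2
    · rw [map_ofNat]; exact h70
    · rw [map_ofNat]; exact seven_sq h4 h7
  set gb : ZMod p := PadicInt.toZMod g with hgb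
  have hgb2 : gb * gb = 7 := by
    rw [hgb, ← map_mul, ← hg, map_ofNat]
  have hσ : (21 + 8 * gb) ^ 2 - 42 * (21 + 8 * gb) - 7 = 0 := by
    linear_combination 64 * hgb2
  have hσ0 : (21 + 8 * gb) ≠ 0 := by
    intro h
    rw [h] at hσ
    apply h70
    linear_combination -hσ
  have hσs := root_b h4 h7 hσ p7
  have hsq : IsSquare ((M' : ZMod p) * (d' : ZMod p) * (21 + 8 * gb)) := by
    have h1 : IsSquare ((c : ZMod p) * (21 + 8 * gb)) :=
      (sq_mul_iff hc0 hσ0).2 (hiff.trans hσs.symm)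
    have e : (M' : ZMod p) * (d' : ZMod p) * (21 + 8 * gb) =
        (d' : ZMod p) ^ 2 * ((c : ZMod p) * (21 + 8 * gb)) := by
      rw [hc]
      push_cast
      ring
    rw [e]
    exact (IsSquare.sq _).mul h1
  obtain ⟨t, ht⟩ : IsSquare ((M' : ℤ_[p]) * (d' : ℤ_[p]) * (21 + 8 * g)) := by
    have e1 : PadicInt.toZMod ((M' : ℤ_[p]) * (d' : ℤ_[p]) * (21 + 8 * g)) =
        (M' : ZMod p) * (d' : ZMod p) * (21 + 8 * gb) := by
      rw [map_mul, map_mul, map_intCast, map_intCast, map_add, map_mul, map_ofNat, map_ofNat]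
    apply Pool.Agent.Y474.Z.sq_of p2
    · rw [e1]
      exact mul_ne_zero (mul_ne_zero hM0 hd0) hσ0
    · rw [e1]
      exact hsq
  -- over `ℚ_p`
  obtain ⟨G, hG⟩ : ∃ G : ℚ_[p], G = algebraMap ℤ_[p] ℚ_[p] g := ⟨_, rfl⟩
  obtain ⟨T, hT⟩ : ∃ T : ℚ_[p], T = algebraMap ℤ_[p] ℚ_[p] t := ⟨_, rfl⟩
  have hg' : (7 : ℚ_[p]) = G * G := by
    have := congrArg (algebraMap ℤ_[p] ℚ_[p]) hg
    rwa [map_mul, map_ofNat, ← hG] at this
  have ht' : (M' : ℚ_[p]) * (d' : ℚ_[p]) * (21 + 8 * G) = T * T := by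
    have := congrArg (algebraMap ℤ_[p] ℚ_[p]) ht
    rwa [map_mul, map_mul, map_mul, map_add, map_mul, map_intCast, map_intCast, map_ofNat,
      map_ofNat, ← hG, ← hT] at this
  have hp0 : (p : ℚ_[p]) ≠ 0 := by exact_mod_cast hp.out.ne_zero
  have hM0' : (M' : ℚ_[p]) ≠ 0 := by
    have : M' ≠ 0 := by rintro rfl; exact hM (dvd_zero _)
    exact_mod_cast this
  have hd0' : (d' : ℚ_[p]) ≠ 0 := by
    have : d' ≠ 0 := by rintro rfl; exact hd (dvd_zero _)
    exact_mod_cast this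
  have hs0 : (21 + 8 * G) ≠ 0 := by
    intro h
    have h1 : (21 + 8 * G) * (21 - 8 * G) = -7 := by
      linear_combination 64 * hg'
    rw [h, zero_mul] at h1
    have h2 : (7 : ℚ_[p]) = 0 := by linear_combination h1
    exact absurd h2 (by exact_mod_cast (by norm_num : (7 : ℕ) ≠ 0))
  refine ⟨(p : ℚ_[p]) * M' * (21 + 8 * G), 0, T / d', ?_, ?_, ?_⟩
  · exact mul_ne_zero (mul_ne_zero hp0 hM0') hs0
  · push_cast
    linear_combination (64 * ((p : ℚ_[p]) * M') ^ 3 * (21 + 8 * G)) * hg'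
  · push_cast
    field_simp
    linear_combination ht'

/-- **local points** from a kernel vector -/
theorem loc (hq : S_LQ) {Q P J : Finset ℕ} (H : Dat Q P) (hJ : Ker Q P J) :
    (∀ (l : ℕ) [Fact l.Prime], LocI ℚ_[l] (21 * (Mn Q P : ℤ)) (112 * (Mn Q P : ℤ) ^ 2)
      ((∏ q ∈ J, q : ℕ) : ℤ)) ∧
    LocI ℝ (21 * (Mn Q P : ℤ)) (112 * (Mn Q P : ℤ) ^ 2) ((∏ q ∈ J, q : ℕ) : ℤ) := by
  classical
  obtain ⟨hJP, k1, k2⟩ := hJ
  have hpr := H.pr
  have hJpr : ∀ p ∈ J, p.Prime := fun p hp => (H.hP p (hJP hp)).1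
  have hM4 := Mn4 H
  have hd4 : ((∏ q ∈ J, q : ℕ) : ℤ) % 4 = 1 := by
    have h : (∏ q ∈ J, q) % 4 = 1 := prod4 fun q hq => (H.hP q (hJP hq)).2.1
    omega
  set M : ℤ := (Mn Q P : ℤ) with hM
  set d : ℤ := ((∏ q ∈ J, q : ℕ) : ℤ) with hd
  have hM0 : M ≠ 0 := by omega
  have hM2 : 0 < M ^ 2 := by positivity
  have hd0 : d ≠ 0 := by omega
  have hdpos : 0 < d := by
    have : 0 ≤ d := by rw [hd]; positivity
    omega
  have hb : (112 * M ^ 2 : ℤ) ≠ 0 := by positivity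
  have hab : (21 * M) ^ 2 - 4 * (112 * M ^ 2) ≠ 0 := by nlinarith
  obtain ⟨q1, q2⟩ := hq (21 * M) (112 * M ^ 2) d hb hab hd0
  have hMe : ∀ q ∈ Q ∪ P, M = q * ((∏ r ∈ (Q ∪ P).erase q, r : ℕ) : ℤ) := by
    intro q hq
    rw [hM]
    unfold Mn
    rw [← Finset.mul_prod_erase (Q ∪ P) (fun r : ℕ => r) hq]
    push_cast
    rfl
  refine ⟨fun l hl => ?_, q2 hdpos⟩
  by_cases l2 : l = 2
  · subst l2
    exact loc_two hM4 hd4 fun h => q1 2 (Or.inl h)
  by_cases lJ : l ∈ J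
  · have hlP : l ∈ P := hJP lJ
    have hlU : l ∈ Q ∪ P := Finset.mem_union_right _ hlP
    have hl4 := (H.hP l hlP).2.1
    have e2 : (Q ∪ P).erase l = J.erase l ∪ ((Q ∪ P) \ J) := by
      ext k
      simp only [Finset.mem_erase, Finset.mem_union, Finset.mem_sdiff]
      constructor
      · rintro ⟨h1, h2⟩
        by_cases hk : k ∈ J
        · exact Or.inl ⟨h1, hk⟩
        · exact Or.inr ⟨h2, hk⟩
      · rintro (⟨h1, h2⟩ | ⟨h1, h2⟩)
        · exact ⟨h1, Or.inr (hJP h2)⟩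
        · refine ⟨?_, h1⟩
          rintro rfl
          exact h2 lJ
    have e3 : Disjoint (J.erase l) ((Q ∪ P) \ J) := by
      rw [Finset.disjoint_left]
      intro k h1 h2
      exact (Finset.mem_sdiff.1 h2).2 (Finset.mem_of_mem_erase h1)
    have hA : ∀ q ∈ J.erase l, q.Prime ∧ q ≠ l := fun q hq =>
      ⟨hJpr q (Finset.mem_of_mem_erase hq), Finset.ne_of_mem_erase hq⟩
    have hC : ∀ q ∈ (Q ∪ P) \ J, q.Prime ∧ q ≠ l := fun q hq =>
      ⟨(hpr q (Finset.mem_sdiff.1 hq).1).1, fun h0 => (Finset.mem_sdiff.1 hq).2 (h0 ▸ lJ)⟩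
    have nd : ∀ S : Finset ℕ, (∀ q ∈ S, q.Prime ∧ q ≠ l) → ¬ (l : ℤ) ∣ ((∏ q ∈ S, q : ℕ) : ℤ) := by
      intro S hS h0
      rw [Int.natCast_dvd_natCast, ← ZMod.natCast_eq_zero_iff] at h0
      exact prod_ne hS h0
    have h := loc_P (p := l) hl4 (H.hP l hlP).2.2 (by rintro rfl; omega)
      (M' := ((∏ r ∈ (Q ∪ P).erase l, r : ℕ) : ℤ)) (d' := ((∏ r ∈ J.erase l, r : ℕ) : ℤ))
      (c := ((∏ r ∈ (Q ∪ P) \ J, r : ℕ) : ℤ))
      (nd _ fun q hq => ⟨(hpr q (Finset.mem_of_mem_erase hq)).1, Finset.ne_of_mem_erase hq⟩)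
      (nd _ hA) (by
        rw [e2, Finset.prod_union e3]
        push_cast
        ring) (by
        rw [Int.cast_natCast, prod_sq (p := l) hC]
        exact ((z2_add _ _).1 (k2 l lJ)).symm)
    have e6 : d = l * ((∏ r ∈ J.erase l, r : ℕ) : ℤ) := by
      rw [hd, ← Finset.mul_prod_erase J (fun r : ℕ => r) lJ]
      push_cast
      ring
    rw [← hMe l hlU, ← e6] at h
    exact h
  have hJl : ∀ q ∈ J, q.Prime ∧ q ≠ l := fun q hq => ⟨hJpr q hq, fun h0 => lJ (h0 ▸ hq)⟩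
  have hdl : ¬ (l : ℤ) ∣ d := by
    intro h0
    rw [hd, Int.natCast_dvd_natCast, ← ZMod.natCast_eq_zero_iff] at h0
    exact prod_ne hJl h0
  by_cases l7 : l = 7
  · subst l7
    refine q1 7 (Or.inl ?_)
    refine padic_sq (by norm_num) hdl ?_
    rw [hd, Int.cast_natCast]
    exact prod_sq7 fun p hp => sq_mod7 (hJpr p hp) (H.hP p (hJP hp)).2.1 (H.hP p (hJP hp)).2.2
  by_cases hlP : l ∈ P
  · refine q1 l (Or.inl ?_)
    refine padic_sq l2 hdl ?_
    rw [hd, Int.cast_natCast, prod_sq (p := l) hJl]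
    exact k1 l (Finset.mem_sdiff.2 ⟨hlP, lJ⟩)
  have h70 : (7 : ZMod l) ≠ 0 := by exact_mod_cast cast_ne0 (p := l) (by norm_num : (7 : ℕ).Prime) l7
  have h20 : (2 : ZMod l) ≠ 0 := by exact_mod_cast cast_ne0 (p := l) Nat.prime_two l2
  have hdz : (d : ZMod l) ≠ 0 := by
    intro h0
    exact hdl ((ZMod.intCast_zmod_eq_zero_iff_dvd _ _).1 h0)
  by_cases hs : IsSquare (d : ZMod l)
  · exact q1 l (Or.inl (padic_sq l2 hdl hs))
  by_cases hs7 : IsSquare (-7 : ZMod l)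
  · -- good reduction
    have hlQ : l ∉ Q := fun h => (H.hQ l h).2.2 hs7
    have hlM : ¬ (l : ℤ) ∣ M := by
      intro h0
      rw [hM, Int.natCast_dvd_natCast] at h0
      unfold Mn at h0
      rw [Prime.dvd_finsetProd_iff hl.out.prime] at h0
      obtain ⟨r, hr, hdr⟩ := h0
      have h2 := (Nat.prime_dvd_prime_iff_eq hl.out (hpr r hr).1).1 hdr
      subst h2
      rcases Finset.mem_union.1 hr with h3 | h3
      · exact hlQ h3
      · exact hlP h3
    have hMz : (M : ZMod l) ≠ 0 := by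
      intro h0
      exact hlM ((ZMod.intCast_zmod_eq_zero_iff_dvd _ _).1 h0)
    refine Pool.Agent.Z894.LG.aux l (21 * M) (112 * M ^ 2) d l2 ?_ ?_ hd0
      (quadraticChar_neg_one_iff_not_isSquare.2 hs)
    · push_cast
      rw [show (112 : ZMod l) = 2 ^ 4 * 7 by norm_num]
      exact mul_ne_zero (mul_ne_zero (pow_ne_zero 4 h20) h70) (pow_ne_zero 2 hMz)
    · have e : (((21 * M : ℤ) : ZMod l)) ^ 2 - 4 * (((112 * M ^ 2 : ℤ)) : ZMod l) =
          -7 * (M : ZMod l) ^ 2 := by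
        push_cast
        ring
      rw [e]
      refine (quadraticChar_one_iff_isSquare ?_).2 ?_
      · exact mul_ne_zero (neg_ne_zero.2 h70) (pow_ne_zero 2 hMz)
      · exact hs7.mul (IsSquare.sq _)
  · refine q1 l (Or.inr ?_)
    have h1 : IsSquare ((d * (-7) : ℤ) : ZMod l) := by
      push_cast
      exact (sq_mul_iff hdz (neg_ne_zero.2 h70)).2 ⟨fun h => absurd h hs, fun h => absurd h hs7⟩
    have h2 : ¬ (l : ℤ) ∣ d * (-7) := by
      rw [← ZMod.intCast_zmod_eq_zero_iff_dvd]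
      push_cast
      exact mul_ne_zero hdz (neg_ne_zero.2 h70)
    obtain ⟨r, hr⟩ := padic_sq l2 h2 h1
    refine ⟨(M : ℚ_[l]) * r, ?_⟩
    push_cast at hr ⊢
    linear_combination (M : ℚ_[l]) ^ 2 * hr

end Pool.Agent.X99.C49
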