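import Pool.Agent.X99.C49.Mat
import Pool.Agent.Y809.BSD14.Selb

/-!
# The isogeny Selmer sets of the twists `Y² = X (X² + 21 M X + 112 M²)` of `X_0(49)`
-/

set_option autoImplicit false
set_option linter.style.haveILetI false

open Finset

namespace Pool.Agent.X99.C49

open Pool.Agent.Y700 (PC)
open Pool.Agent.Y814.BSD14 Pool.Agent.Y809.BSD14

/-- the number `M` -/
def Mn (Q P : Finset ℕ) : ℕ := ∏ q ∈ Q ∪ P, q

section

variable {p : ℕ} [hp : Fact p.Prime]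

theorem cast_ne0 {q : ℕ} (hq : q.Prime) (h : p ≠ q) : (q : ZMod p) ≠ 0 :=
  Pool.Agent.Y814.BSD14.cast_ne hp.out hq h

theorem neg_one_sq (h4 : p % 4 = 1) : IsSquare (-1 : ZMod p) :=
  ZMod.exists_sq_eq_neg_one_iff.2 (by omega)

theorem seven_sq (h4 : p % 4 = 1) (h7 : IsSquare (-7 : ZMod p)) : IsSquare (7 : ZMod p) := by
  have h := (neg_one_sq (p := p) h4).mul h7
  have e : (-1 : ZMod p) * -7 = 7 := by ring
  rwa [e] at h

/-- a root of `x² + 21 x + 112` is a square if and only if `-7` is a fourth power -/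
theorem root_a (h4 : p % 4 = 1) {x : ZMod p} (hx : x ^ 2 + 21 * x + 112 = 0) :
    IsSquare x ↔ n4 p = 0 := by
  have p2 : p ≠ 2 := by rintro rfl; omega
  have h2 : (2 : ZMod p) ≠ 0 := by exact_mod_cast cast_ne0 (p := p) Nat.prime_two p2
  rw [n4_zero]
  obtain ⟨i, hi⟩ := neg_one_sq (p := p) h4
  set s : ZMod p := 2 * x + 21 with hs
  have hs2 : s ^ 2 = -7 := by
    rw [hs]
    linear_combination 4 * hx
  -- `β = (1 - s) / 2`, `x = s β⁴`
  obtain ⟨β, hβ⟩ : ∃ β : ZMod p, 2 * β = 1 - s := ⟨(1 - s) / 2, by field_simp⟩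
  have hβ2 : β ^ 2 = β - 2 := by
    have h1 : 4 * (β ^ 2 - β + 2) = 0 := by
      linear_combination (2 * β + (1 - s) - 2) * hβ + hs2
    have h3 : (4 : ZMod p) ≠ 0 := by
      rw [show (4 : ZMod p) = 2 * 2 by norm_num]
      exact mul_ne_zero h2 h2
    have := (mul_eq_zero.1 h1).resolve_left h3
    linear_combination this
  have hβ0 : β ≠ 0 := by
    rintro rfl
    apply h2
    linear_combination hβ2
  have hx4 : x = s * (β ^ 2) ^ 2 := by
    have h1 : 2 * (x - s * (β ^ 2) ^ 2) = 0 := by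
      have e1 : s = 1 - 2 * β := by linear_combination hβ
      have e2 : 2 * x = s - 21 := by rw [hs]; ring
      have e3 : (β ^ 2) ^ 2 = -3 * β + 2 := by
        rw [hβ2]
        linear_combination hβ2
      rw [e3]
      have e4 : 2 * (x - s * (-3 * β + 2)) = (s - 21) - 2 * s * (-3 * β + 2) := by
        linear_combination e2
      rw [e4, e1]
      linear_combination (-12) * hβ2
    have := (mul_eq_zero.1 h1).resolve_left h2
    linear_combination this
  have hβ20 : (β ^ 2) ≠ 0 := pow_ne_zero 2 hβ0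
  constructor
  · rintro ⟨t, ht⟩
    refine ⟨t / β ^ 2, ?_⟩
    rw [div_pow, div_eq_iff (pow_ne_zero 4 hβ20)]
    have : t ^ 4 = (t * t) ^ 2 := by ring
    rw [this, ← ht, hx4]
    linear_combination (β ^ 2) ^ 4 * hs2
  · rintro ⟨y, hy⟩
    have h1 : (y ^ 2 - s) * (y ^ 2 + s) = 0 := by linear_combination hy - hs2
    rcases mul_eq_zero.1 h1 with h1 | h1
    · refine ⟨y * β ^ 2, ?_⟩
      rw [hx4]
      linear_combination (-(β ^ 2) ^ 2) * h1
    · refine ⟨i * y * β ^ 2, ?_⟩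
      rw [hx4]
      linear_combination (β ^ 2) ^ 2 * h1 + y ^ 2 * (β ^ 2) ^ 2 * hi

/-- a root of `x² - 42 x - 7` is a square if and only if `-7` is a fourth power -/
theorem root_b (h4 : p % 4 = 1) (h7 : IsSquare (-7 : ZMod p)) {x : ZMod p}
    (hx : x ^ 2 - 42 * x - 7 = 0) (p7 : p ≠ 7) : IsSquare x ↔ n4 p = 0 := by
  have p2 : p ≠ 2 := by rintro rfl; omega
  have h2 : (2 : ZMod p) ≠ 0 := by exact_mod_cast cast_ne0 (p := p) Nat.prime_two p2
  have h70 : (7 : ZMod p) ≠ 0 := by exact_mod_cast cast_ne0 (p := p) (by norm_num : (7 : ℕ).Prime) p7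
  have h80 : (8 : ZMod p) ≠ 0 := by
    rw [show (8 : ZMod p) = 2 ^ 3 by norm_num]
    exact pow_ne_zero 3 h2
  obtain ⟨i, hi⟩ := neg_one_sq (p := p) h4
  obtain ⟨s, hs⟩ := h7
  obtain ⟨ρ, hρ⟩ : ∃ ρ : ZMod p, 2 * ρ = s - 21 := ⟨(s - 21) / 2, by field_simp⟩
  have hρr : ρ ^ 2 + 21 * ρ + 112 = 0 := by
    have h1 : 4 * (ρ ^ 2 + 21 * ρ + 112) = 0 := by
      linear_combination (2 * ρ + (s - 21) + 42) * hρ - hs
    have h3 : (4 : ZMod p) ≠ 0 := by
      rw [show (4 : ZMod p) = 2 * 2 by norm_num]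
      exact mul_ne_zero h2 h2
    exact (mul_eq_zero.1 h1).resolve_left h3
  rw [← root_a h4 hρr]
  have hρ0 : ρ ≠ 0 := by
    rintro rfl
    have : (2 : ZMod p) ^ 4 * 7 = 0 := by linear_combination hρr
    exact mul_ne_zero (pow_ne_zero 4 h2) h70 this
  have hx0 : x ≠ 0 := by
    rintro rfl
    apply h70
    linear_combination -hx
  obtain ⟨t, ht⟩ : ∃ t : ZMod p, 8 * t = x - 21 := ⟨(x - 21) / 8, by field_simp⟩
  have ht2 : t ^ 2 = 7 := by
    have h1 : 64 * (t ^ 2 - 7) = 0 := by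
      linear_combination (8 * t + (x - 21)) * ht + hx
    have h3 : (64 : ZMod p) ≠ 0 := by
      rw [show (64 : ZMod p) = 2 ^ 6 by norm_num]
      exact pow_ne_zero 6 h2
    have := (mul_eq_zero.1 h1).resolve_left h3
    linear_combination this
  -- `x ρ = - (ρ - 4 t)²`
  have key : x * ρ = -(ρ - 4 * t) ^ 2 := by
    linear_combination (-ρ) * ht + hρr + 16 * ht2
  have hd0 : ρ - 4 * t ≠ 0 := by
    intro h
    rw [h] at key
    apply mul_ne_zero hx0 hρ0
    rw [key]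
    ring
  have hsq : IsSquare (x * ρ) := by
    rw [key]
    exact ⟨i * (ρ - 4 * t), by linear_combination (ρ - 4 * t) ^ 2 * hi⟩
  exact (sq_mul_iff hx0 hρ0).1 hsq

end

/-- **the frame of the descent** -/
theorem frame {Q P : Finset ℕ} (H : Dat Q P) (hdet : ∀ J, Ker Q P J → J = ∅) {c1 c2 : ℤ}
    (hc2 : ∀ q : ℕ, q.Prime → q ≠ 2 → q ≠ 7 → ¬ (q : ℤ) ∣ c2)
    (hs2 : ∀ p ∈ P, IsSquare ((c2 : ℤ) : ZMod p))
    (hrt : ∀ q ∈ Q, ∀ M r : ZMod q, M ≠ 0 → r ^ 2 + c1 * M * r + c2 * M ^ 2 ≠ 0)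
    (hroot : ∀ p ∈ P, ∀ x : ZMod p, x ^ 2 + c1 * x + c2 = 0 → (IsSquare x ↔ n4 p = 0))
    {z : ℤ} (hz : Squarefree z) (hz2 : ¬ (2 : ℤ) ∣ z)
    (h : ∀ (l : ℕ) [Fact l.Prime], PC (c1 * (Mn Q P : ℤ)) (c2 * (Mn Q P : ℤ) ^ 2) l z) :
    z.natAbs = 1 ∨ z.natAbs = 7 := by
  classical
  have hpr := H.pr
  have hdisj := H.disj
  -- the factorisation of `M` at a prime
  have hMe : ∀ q ∈ Q ∪ P, (Mn Q P : ℤ) = q * ((∏ r ∈ (Q ∪ P).erase q, r : ℕ) : ℤ) := by
    intro q hq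
    unfold Mn
    rw [← Finset.mul_prod_erase (Q ∪ P) (fun r : ℕ => r) hq]
    push_cast
    rfl
  have hM' : ∀ q ∈ Q ∪ P, ¬ (q : ℤ) ∣ ((∏ r ∈ (Q ∪ P).erase q, r : ℕ) : ℤ) := by
    intro q hq h0
    have : Fact q.Prime := ⟨(hpr q hq).1⟩
    have h1 := prod_ne (p := q) (S := (Q ∪ P).erase q) fun r hr =>
      ⟨(hpr r (Finset.mem_of_mem_erase hr)).1, Finset.ne_of_mem_erase hr⟩
    rw [Int.natCast_dvd_natCast] at h0
    exact h1 ((ZMod.natCast_eq_zero_iff _ _).2 h0)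
  have n2 : ∀ q ∈ Q ∪ P, q ≠ 2 := by
    intro q hq h0
    have := (hpr q hq).2
    omega
  have n7 : ∀ q ∈ Q ∪ P, q ≠ 7 := by
    intro q hq h0
    have := (hpr q hq).2
    omega
  have hB : ∀ q ∈ Q ∪ P, ¬ (q : ℤ) ∣ c2 * ((∏ r ∈ (Q ∪ P).erase q, r : ℕ) : ℤ) ^ 2 := by
    intro q hq h0
    have hqP : Prime (q : ℤ) := Nat.prime_iff_prime_int.1 (hpr q hq).1
    rcases hqP.dvd_or_dvd h0 with h0 | h0
    · exact hc2 q (hpr q hq).1 (n2 q hq) (n7 q hq) h0
    · exact hM' q hq (hqP.dvd_of_dvd_pow h0)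
  have hPCe : ∀ q ∈ Q ∪ P, ∀ [Fact q.Prime],
      PC (q * (c1 * ((∏ r ∈ (Q ∪ P).erase q, r : ℕ) : ℤ)))
        ((q : ℤ) ^ 2 * (c2 * ((∏ r ∈ (Q ∪ P).erase q, r : ℕ) : ℤ) ^ 2)) q z := by
    intro q hq _
    have h1 := h q
    rw [hMe q hq] at h1
    rwa [show c1 * ((q : ℤ) * ((∏ r ∈ (Q ∪ P).erase q, r : ℕ) : ℤ)) =
        q * (c1 * ((∏ r ∈ (Q ∪ P).erase q, r : ℕ) : ℤ)) by ring,
      show c2 * ((q : ℤ) * ((∏ r ∈ (Q ∪ P).erase q, r : ℕ) : ℤ)) ^ 2 =
        (q : ℤ) ^ 2 * (c2 * ((∏ r ∈ (Q ∪ P).erase q, r : ℕ) : ℤ) ^ 2) by ring] at h1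
  -- the primes dividing `z`
  have hdz : ∀ q : ℕ, q.Prime → (q : ℤ) ∣ z → q = 7 ∨ q ∈ P := by
    intro q hq hqz
    by_contra hcon
    push Not at hcon
    have : Fact q.Prime := ⟨hq⟩
    have hqP : Prime (q : ℤ) := Nat.prime_iff_prime_int.1 hq
    have hq2 : q ≠ 2 := by
      rintro rfl
      exact hz2 (by exact_mod_cast hqz)
    by_cases hqQ : q ∈ Q
    · have hqU : q ∈ Q ∪ P := Finset.mem_union_left _ hqQ
      obtain ⟨r, hr, -, -⟩ := root_of_PC hz hqz (hB q hqU) (hPCe q hqU)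
      have hM0 : ((∏ r ∈ (Q ∪ P).erase q, r : ℕ) : ZMod q) ≠ 0 := by
        intro h0
        exact hM' q hqU (by
          rw [Int.natCast_dvd_natCast]
          exact (ZMod.natCast_eq_zero_iff _ _).1 h0)
      refine hrt q hqQ _ r hM0 ?_
      rw [← hr]
      push_cast
      ring
    · refine not_dvd_of_PC hz ?_ (h q) hqz
      intro h0
      rcases hqP.dvd_or_dvd h0 with h0 | h0
      · exact hc2 q hq hq2 hcon.1 h0
      · have h1 := hqP.dvd_of_dvd_pow h0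
        rw [Int.natCast_dvd_natCast] at h1
        unfold Mn at h1
        rw [Prime.dvd_finsetProd_iff hq.prime] at h1
        obtain ⟨r, hr, hd⟩ := h1
        have h2 := (Nat.prime_dvd_prime_iff_eq hq (hpr r hr).1).1 hd
        subst h2
        rcases Finset.mem_union.1 hr with h3 | h3
        · exact hqQ h3
        · exact hcon.2 h3
  -- the decomposition
  set J := P.filter (fun p : ℕ => (p : ℤ) ∣ z) with hJdef
  have hJP : J ⊆ P := Finset.filter_subset _ _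
  have hJm : ∀ p, p ∈ J ↔ p ∈ P ∧ (p : ℤ) ∣ z := fun p => Finset.mem_filter
  have hJpr : ∀ p ∈ J, p.Prime := fun p hp => (H.hP p (hJP hp)).1
  obtain ⟨u, hu⟩ : ((∏ q ∈ J, q : ℕ) : ℤ) ∣ z := by
    rw [Int.natCast_dvd]
    refine Finset.prod_primes_dvd _ (fun q hq => (hJpr q hq).prime) fun q hq => ?_
    exact Int.natCast_dvd.1 ((hJm q).1 hq).2
  have huq : ∀ q : ℕ, q.Prime → (q : ℤ) ∣ u → q = 7 := by
    intro q hq hqu
    have hqz : (q : ℤ) ∣ z := by
      rw [hu]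
      exact hqu.mul_left _
    rcases hdz q hq hqz with h1 | h1
    · exact h1
    · exfalso
      have hqJ : q ∈ J := (hJm q).2 ⟨h1, hqz⟩
      have h2 : z = q * (((∏ r ∈ J.erase q, r : ℕ) : ℤ) * u) := by
        rw [hu, ← Finset.mul_prod_erase J (fun r : ℕ => r) hqJ]
        push_cast
        ring
      exact not_dvd_of_sqf hq hz h2 (hqu.mul_left _)
  have huu : u.natAbs = 1 ∨ u.natAbs = 7 :=
    only_prime (hz.squarefree_of_dvd (Dvd.intro_left _ hu.symm)) huq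
  have husq : ∀ p ∈ P, IsSquare (u : ZMod p) := by
    intro p hp
    have hp4 := (H.hP p hp).2.1
    have : Fact p.Prime := ⟨(H.hP p hp).1⟩
    have e7 := seven_sq (p := p) hp4 (H.hP p hp).2.2
    have e1 := neg_one_sq (p := p) hp4
    have hu4 : u = 1 ∨ u = -1 ∨ u = 7 ∨ u = -7 := by omega
    rcases hu4 with h1 | h1 | h1 | h1 <;> rw [h1]
    · exact ⟨1, by simp⟩
    · push_cast; exact e1
    · push_cast; exact e7
    · push_cast; exact (H.hP p hp).2.2
  have hu0 : ∀ p ∈ P, (u : ZMod p) ≠ 0 := by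
    intro p hp h0
    have h1 := (ZMod.intCast_zmod_eq_zero_iff_dvd u p).1 h0
    have h2 := huq p (H.hP p hp).1 h1
    exact n7 p (Finset.mem_union_right _ hp) h2
  have hK : Ker Q P J := by
    refine ⟨hJP, ?_, ?_⟩
    · intro p hp
      obtain ⟨hpP, hpJ⟩ := Finset.mem_sdiff.1 hp
      have hpU : p ∈ Q ∪ P := Finset.mem_union_right _ hpP
      have : Fact p.Prime := ⟨(H.hP p hpP).1⟩
      have hpz : ¬ (p : ℤ) ∣ z := fun h0 => hpJ ((hJm p).2 ⟨hpP, h0⟩)
      have h1 := h p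
      rw [hMe p hpU] at h1
      have h2 := sq_of_PC hpz (hM' p hpU) (hc2 p (H.hP p hpP).1 (n2 p hpU) (n7 p hpU))
        (hs2 p hpP) h1
      have hJS : ∀ q ∈ J, q.Prime ∧ q ≠ p := fun q hq =>
        ⟨hJpr q hq, fun h0 => hpJ (h0 ▸ hq)⟩
      rw [← prod_sq (p := p) hJS]
      have h3 : (z : ZMod p) = ((∏ q ∈ J, q : ℕ) : ZMod p) * (u : ZMod p) := by
        rw [hu]
        push_cast
        ring
      rw [h3, sq_mul_iff (prod_ne hJS) (hu0 p hpP)] at h2
      exact h2.2 (husq p hpP)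
    · intro p hp
      obtain ⟨hpP, z', hz'⟩ := (hJm p).1 hp
      have hpU : p ∈ Q ∪ P := Finset.mem_union_right _ hpP
      have : Fact p.Prime := ⟨(H.hP p hpP).1⟩
      have hp0 : (p : ℤ) ≠ 0 := by
        have := (H.hP p hpP).1.ne_zero
        exact_mod_cast this
      obtain ⟨r, hr, hr0, hr2⟩ := root_of_PC hz ⟨z', hz'⟩ (hB p hpU) (hPCe p hpU)
      have hsq := hr2 z' hz'
      have e1 : z' = ((∏ r ∈ J.erase p, r : ℕ) : ℤ) * u := by
        apply mul_left_cancel₀ hp0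
        rw [← hz', hu, ← Finset.mul_prod_erase J (fun r : ℕ => r) hp]
        push_cast
        ring
      have e2 : (Q ∪ P).erase p = J.erase p ∪ ((Q ∪ P) \ J) := by
        ext k
        simp only [Finset.mem_erase, Finset.mem_union, Finset.mem_sdiff]
        constructor
        · rintro ⟨h1, h2⟩
          by_cases hk : k ∈ J
          · exact Or.inl ⟨h1, hk⟩
          · exact Or.inr ⟨h2, hk⟩
        · rintro (⟨h1, h2⟩ | ⟨h1, h2⟩)
          · exact ⟨h1, Or.inr (hJP h2)⟩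
          · refine ⟨?_, h1⟩
            rintro rfl
            exact h2 hp
      have e3 : Disjoint (J.erase p) ((Q ∪ P) \ J) := by
        rw [Finset.disjoint_left]
        intro k h1 h2
        exact (Finset.mem_sdiff.1 h2).2 (Finset.mem_of_mem_erase h1)
      have hA : ∀ q ∈ J.erase p, q.Prime ∧ q ≠ p := fun q hq =>
        ⟨hJpr q (Finset.mem_of_mem_erase hq), Finset.ne_of_mem_erase hq⟩
      have hC : ∀ q ∈ (Q ∪ P) \ J, q.Prime ∧ q ≠ p := fun q hq =>
        ⟨(hpr q (Finset.mem_sdiff.1 hq).1).1, fun h0 => (Finset.mem_sdiff.1 hq).2 (h0 ▸ hp)⟩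
      have hAn := prod_ne (p := p) hA
      have hCn := prod_ne (p := p) hC
      rw [e2, Finset.prod_union e3] at hr
      set a : ZMod p := ((∏ r ∈ J.erase p, r : ℕ) : ZMod p) with ha
      set c : ZMod p := ((∏ r ∈ (Q ∪ P) \ J, r : ℕ) : ZMod p) with hc
      have hr' : r ^ 2 + c1 * (a * c) * r + c2 * (a * c) ^ 2 = 0 := by
        rw [← hr, ha, hc]
        push_cast
        ring
      have hac : a * c ≠ 0 := mul_ne_zero hAn hCn
      have hx : (r / (a * c)) ^ 2 + c1 * (r / (a * c)) + c2 = 0 := by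
        field_simp
        linear_combination hr'
      have h5 := hroot p hpP _ hx
      rw [z2_add, ← h5, ← prod_sq (p := p) hC, ← hc]
      have hx0 : r / (a * c) ≠ 0 := div_ne_zero hr0 hac
      rw [← sq_mul_iff hx0 hCn]
      have hz'0 : (z' : ZMod p) = a * u := by
        rw [e1, ha]
        push_cast
        ring
      rw [hz'0] at hsq
      obtain ⟨s, hs⟩ := husq p hpP
      have hs0 : s ≠ 0 := by
        rintro rfl
        apply hu0 p hpP
        rw [hs]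
        ring
      obtain ⟨t, ht⟩ := hsq
      refine ⟨t / (a * s), ?_⟩
      rw [hs] at ht
      field_simp
      linear_combination ht
  have hJ := hdet J hK
  rw [hJ, Finset.prod_empty, Nat.cast_one, one_mul] at hu
  rw [hu]
  exact huu

end Pool.Agent.X99.C49
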