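import Pool.Agent.X99.C49.Sel

/-!
# The two isogeny Selmer sets
-/

set_option autoImplicit false
set_option linter.style.haveILetI false

open Finset

namespace Pool.Agent.X99.C49

open Pool.Agent.Y700 (PC)
open Pool.Agent.Y814.BSD14 Pool.Agent.Y809.BSD14

theorem par2 (a : ℤ_[2]) : (∃ b, a * b = 1) ∨ ∃ b, a = 2 * b := by
  by_cases h : IsUnit a
  · left
    exact h.exists_right_inv
  · right
    have h1 : ‖a‖ < 1 := by
      rw [← PadicInt.mem_nonunits]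
      exact h
    have h2 : ((2 : ℕ) : ℤ_[2]) ∣ a := PadicInt.norm_lt_one_iff_dvd a |>.1 h1
    obtain ⟨b, hb⟩ := h2
    exact ⟨b, by rw [hb]; norm_num⟩

theorem u8 : ∀ x y : ZMod 8, x * y = 1 → x ^ 2 = 1 := by decide

theorem u4 : ∀ x y : ZMod 4, x * y = 1 → x ^ 2 = 1 := by decide

theorem kA : ∀ z M n : ZMod 8, (z = 1 ∨ z = 3 ∨ z = 5 ∨ z = 7) → (M = 1 ∨ M = 5) →
    z * n ^ 2 ≠ 2 * z ^ 2 + 21 * M * z + 56 * M ^ 2 := by decide

theorem kB : ∀ z n : ZMod 4, (z = 1 ∨ z = 3) → z * n ^ 2 ≠ 2 * z ^ 2 := by decide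

theorem kC : ∀ z M n r : ZMod 8, (z = 1 ∨ z = 3 ∨ z = 5 ∨ z = 7) → (M = 1 ∨ M = 5) →
    z * n ^ 2 ≠ 8 * z ^ 2 * r ^ 4 + 21 * M * z * r ^ 2 + 14 * M ^ 2 := by decide

theorem odd8 {z : ℤ} (hz : z % 2 = 1) :
    (z : ZMod 8) = 1 ∨ (z : ZMod 8) = 3 ∨ (z : ZMod 8) = 5 ∨ (z : ZMod 8) = 7 := by
  have h : z % 8 = 1 ∨ z % 8 = 3 ∨ z % 8 = 5 ∨ z % 8 = 7 := by omega
  have h2 : (z : ZMod 8) = ((z % 8 : ℤ) : ZMod 8) := by
    rw [ZMod.intCast_eq_intCast_iff]
    exact (Int.mod_modEq z 8).symm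
  rcases h with h | h | h | h <;> rw [h2, h] <;> simp

theorem odd4 {z : ℤ} (hz : z % 2 = 1) : (z : ZMod 4) = 1 ∨ (z : ZMod 4) = 3 := by
  have h : z % 4 = 1 ∨ z % 4 = 3 := by omega
  have h2 : (z : ZMod 4) = ((z % 4 : ℤ) : ZMod 4) := by
    rw [ZMod.intCast_eq_intCast_iff]
    exact (Int.mod_modEq z 4).symm
  rcases h with h | h <;> rw [h2, h] <;> simp

theorem m8 {z : ℤ} (hz : z % 4 = 1) : (z : ZMod 8) = 1 ∨ (z : ZMod 8) = 5 := by
  have h : z % 8 = 1 ∨ z % 8 = 5 := by omega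
  have h2 : (z : ZMod 8) = ((z % 8 : ℤ) : ZMod 8) := by
    rw [ZMod.intCast_eq_intCast_iff]
    exact (Int.mod_modEq z 8).symm
  rcases h with h | h <;> rw [h2, h] <;> simp

theorem no_even {M z : ℤ} (hM : M % 4 = 1) (hz : z % 2 = 1) (n r e : ℤ_[2])
    (hre : (∃ r', r * r' = 1) ∨ ∃ e', e * e' = 1)
    (h : z * n ^ 2 = 2 * z ^ 2 * r ^ 4 + 21 * M * z * r ^ 2 * e ^ 2 + 56 * M ^ 2 * e ^ 4) :
    False := by
  obtain ⟨f⟩ : Nonempty (ℤ_[2] →+* ZMod 8) := ⟨by simpa using PadicInt.toZModPow (p := 2) 3⟩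
  obtain ⟨g⟩ : Nonempty (ℤ_[2] →+* ZMod 4) := ⟨by simpa using PadicInt.toZModPow (p := 2) 2⟩
  have c8 := odd8 hz
  have c4 := odd4 hz
  have cM := m8 hM
  rcases par2 r with ⟨r', hr'⟩ | ⟨r', rfl⟩
  · have er := u8 (f r) (f r') (by rw [← map_mul, hr', map_one])
    have er4 := u4 (g r) (g r') (by rw [← map_mul, hr', map_one])
    rcases par2 e with ⟨e', he'⟩ | ⟨e', rfl⟩
    · have ee := u8 (f e) (f e') (by rw [← map_mul, he', map_one])
      have h1 := congrArg f h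
      simp only [map_pow, map_mul, map_add, map_intCast, map_ofNat] at h1
      refine kA (z : ZMod 8) (M : ZMod 8) (f n) c8 cM ?_
      rw [h1]
      have e4 : f r ^ 4 = 1 := by rw [show f r ^ 4 = (f r ^ 2) ^ 2 by ring, er, one_pow]
      have e5 : f e ^ 4 = 1 := by rw [show f e ^ 4 = (f e ^ 2) ^ 2 by ring, ee, one_pow]
      rw [e4, e5, er, ee]
      ring
    · have h1 := congrArg g h
      simp only [map_pow, map_mul, map_add, map_intCast, map_ofNat] at h1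
      refine kB (z : ZMod 4) (g n) c4 ?_
      rw [h1]
      have e4 : g r ^ 4 = 1 := by rw [show g r ^ 4 = (g r ^ 2) ^ 2 by ring, er4, one_pow]
      have e0 : (4 : ZMod 4) = 0 := by decide
      rw [e4]
      linear_combination (21 * M * z * g r ^ 2 * g e' ^ 2 + 56 * 4 * M ^ 2 * g e' ^ 4) * e0
  · rcases hre with ⟨r'', hr''⟩ | ⟨e', he'⟩
    · exfalso
      have h2 := congrArg f hr''
      simp only [map_mul, map_ofNat, map_one] at h2
      have : ∀ a b : ZMod 8, 2 * a * b ≠ 1 := by decide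
      exact this _ _ h2
    · have ee := u8 (f e) (f e') (by rw [← map_mul, he', map_one])
      rcases par2 n with ⟨n', hn'⟩ | ⟨n', rfl⟩
      · have h1 := congrArg g h
        simp only [map_pow, map_mul, map_add, map_intCast, map_ofNat] at h1
        have en := u4 (g n) (g n') (by rw [← map_mul, hn', map_one])
        rw [en] at h1
        have e0 : (4 : ZMod 4) = 0 := by decide
        have h2 : (z : ZMod 4) = 0 := by
          linear_combination h1 + (2 * z ^ 2 * 4 * g r' ^ 4 + 21 * M * z * g r' ^ 2 * g e ^ 2 +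
            14 * M ^ 2 * g e ^ 4) * e0
        rcases c4 with h3 | h3 <;> rw [h3] at h2 <;> exact absurd h2 (by decide)
      · have h4 : (4 : ℤ_[2]) ≠ 0 := by norm_num
        have h5 : (z : ℤ_[2]) * n' ^ 2 = 8 * z ^ 2 * r' ^ 4 + 21 * M * z * r' ^ 2 * e ^ 2 +
            14 * M ^ 2 * e ^ 4 := by
          apply mul_left_cancel₀ h4
          linear_combination h
        have h1 := congrArg f h5
        simp only [map_pow, map_mul, map_add, map_intCast, map_ofNat] at h1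
        refine kC (z : ZMod 8) (M : ZMod 8) (f n') (f r') c8 cM ?_
        rw [h1]
        have e5 : f e ^ 4 = 1 := by rw [show f e ^ 4 = (f e ^ 2) ^ 2 by ring, ee, one_pow]
        rw [e5, ee]
        ring

/-- the equation of the covering -/
theorem cover {l : ℕ} [Fact l.Prime] {a b z : ℤ} (hz : z ≠ 0) (h : PC a b l z) :
    ∃ s N : ℚ_[l], z * N ^ 2 = z ^ 2 * s ^ 4 + a * z * s ^ 2 + b := by
  obtain ⟨x, y, hy, h1, t, ht⟩ := h
  have hx := ne_zero_of_eq hy h1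
  have hz0 : (z : ℚ_[l]) ≠ 0 := by exact_mod_cast hz
  obtain ⟨s, hs⟩ : ∃ s : ℚ_[l], t = s * z := ⟨t / z, by field_simp⟩
  have hxs : x = z * s ^ 2 := by
    apply mul_right_cancel₀ hz0
    rw [ht, hs]
    ring
  subst hxs
  have hs0 : s ≠ 0 := by
    rintro rfl
    apply hx
    ring
  obtain ⟨N, hN⟩ : ∃ N : ℚ_[l], y = s * z * N := ⟨y / (s * z), by field_simp⟩
  subst hN
  refine ⟨s, N, ?_⟩
  have h3 : (z : ℚ_[l]) * s ^ 2 ≠ 0 := mul_ne_zero hz0 (pow_ne_zero 2 hs0)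
  apply mul_left_cancel₀ h3
  linear_combination h1

theorem not_two {M z : ℤ} (hM : M % 4 = 1) (hz : Squarefree z)
    (h : PC (21 * M) (112 * M ^ 2) 2 z) : ¬ (2 : ℤ) ∣ z := by
  rintro ⟨z', rfl⟩
  have hz' : z' % 2 = 1 := by
    by_contra hcon
    have h1 : (2 : ℤ) ∣ z' := by omega
    obtain ⟨k, rfl⟩ := h1
    have h2 := hz 2 ⟨k, by ring⟩
    rw [Int.isUnit_iff] at h2
    omega
  have hz0 : (2 * z' : ℤ) ≠ 0 := by omega
  obtain ⟨s, N, hN⟩ := cover hz0 h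
  have h1 : (z' : ℚ_[2]) * N ^ 2 = 2 * z' ^ 2 * s ^ 4 + 21 * M * z' * s ^ 2 + 56 * M ^ 2 := by
    have h2 : (2 : ℚ_[2]) ≠ 0 := two_ne_zero
    apply mul_left_cancel₀ h2
    push_cast at hN
    linear_combination hN
  obtain ⟨r, e, he, hs, hu⟩ := two_adic_frac s
  set A : ℤ_[2] := 2 * z' ^ 2 * r ^ 4 + 21 * M * z' * r ^ 2 * e ^ 2 + 56 * M ^ 2 * e ^ 4 with hA
  have h3 : (z' : ℚ_[2]) * (N * e ^ 2) ^ 2 = (A : ℚ_[2]) := by
    have e1 : (z' : ℚ_[2]) * (N * e ^ 2) ^ 2 = (z' * N ^ 2) * e ^ 4 := by ring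
    have c2 : ((2 : ℤ_[2]) : ℚ_[2]) = 2 := rfl
    have c21 : ((21 : ℤ_[2]) : ℚ_[2]) = 21 := rfl
    have c56 : ((56 : ℤ_[2]) : ℚ_[2]) = 56 := rfl
    rw [e1, h1, hs, hA]
    push_cast
    rw [c2, c21, c56]
    field_simp
  have hzn : ‖(z' : ℚ_[2])‖ = 1 := by
    refine le_antisymm (Padic.norm_int_le_one z') (not_lt.1 fun h => ?_)
    have h5 := Padic.norm_intCast_lt_one_iff.1 h
    have : (2 : ℤ) ∣ z' := by exact_mod_cast h5
    omega
  have h4 : ‖N * (e : ℚ_[2]) ^ 2‖ ≤ 1 := by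
    have h5 : ‖N * (e : ℚ_[2]) ^ 2‖ ^ 2 ≤ 1 := by
      have h6 := congrArg norm h3
      rw [norm_mul, hzn, one_mul, norm_pow] at h6
      rw [h6]
      exact A.2
    by_contra h7
    push Not at h7
    nlinarith
  obtain ⟨n, hn⟩ : ∃ n : ℤ_[2], (n : ℚ_[2]) = N * (e : ℚ_[2]) ^ 2 := ⟨⟨_, h4⟩, rfl⟩
  have h8 : (z' : ℤ_[2]) * n ^ 2 = A := by
    apply PadicInt.ext
    push_cast
    rw [hn, h3]
  exact no_even hM hz' n r e hu (h8.trans hA)

theorem k16a : ∀ M n W E : ZMod 16, (M = 1 ∨ M = 5 ∨ M = 9 ∨ M = 13) →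
    (n = 0 ∨ n = 1 ∨ n = 4 ∨ n = 9) → (W = 0 ∨ W = 1 ∨ W = 4 ∨ W = 9) →
    (E = 0 ∨ E = 1 ∨ E = 4 ∨ E = 9) → ((W = 1 ∨ W = 9) ∨ (E = 1 ∨ E = 9)) →
    ¬ (n = -(W ^ 2 + 42 * M * W * E - 7 * M ^ 2 * E ^ 2)) := by
  rintro M n W E (rfl | rfl | rfl | rfl) (rfl | rfl | rfl | rfl) (rfl | rfl | rfl | rfl)
    (rfl | rfl | rfl | rfl)
  all_goals decide

theorem k16b : ∀ M n W E : ZMod 16, (M = 1 ∨ M = 5 ∨ M = 9 ∨ M = 13) →
    (n = 0 ∨ n = 1 ∨ n = 4 ∨ n = 9) → (W = 0 ∨ W = 1 ∨ W = 4 ∨ W = 9) →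
    (E = 0 ∨ E = 1 ∨ E = 4 ∨ E = 9) → ((W = 1 ∨ W = 9) ∨ (E = 1 ∨ E = 9)) →
    ¬ (n = 7 * W ^ 2 - 42 * M * W * E - M ^ 2 * E ^ 2) := by
  rintro M n W E (rfl | rfl | rfl | rfl) (rfl | rfl | rfl | rfl) (rfl | rfl | rfl | rfl)
    (rfl | rfl | rfl | rfl)
  all_goals decide

theorem not_m1 {M : ℤ} (hM : M % 4 = 1) : ¬ PC (-42 * M) (-7 * M ^ 2) 2 (-1) := by
  intro h
  obtain ⟨s, N, hN⟩ := cover (by norm_num) h
  refine no_pt M (-1) (-42) 7 ?_ s N ?_
  · intro n W E hn hW hE hu h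
    refine k16a M n W E (mod4_16 M hM) hn hW hE hu (h.trans ?_)
    push_cast; ring
  · push_cast at hN ⊢
    linear_combination -hN

theorem not_7 {M : ℤ} (hM : M % 4 = 1) : ¬ PC (-42 * M) (-7 * M ^ 2) 2 7 := by
  intro h
  obtain ⟨s, N, hN⟩ := cover (by norm_num) h
  refine no_pt M 7 (-42) (-1) ?_ s N ?_
  · intro n W E hn hW hE hu h
    refine k16b M n W E (mod4_16 M hM) hn hW hE hu (h.trans ?_)
    push_cast; ring
  · have h7 : (7 : ℚ_[2]) ≠ 0 := by norm_num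
    apply mul_left_cancel₀ h7
    push_cast at hN ⊢
    linear_combination hN

theorem prod4 {S : Finset ℕ} (h : ∀ q ∈ S, q % 4 = 1) : (∏ q ∈ S, q) % 4 = 1 := by
  induction S using Finset.induction_on with
  | empty => rfl
  | insert q K hq ih =>
    rw [Finset.prod_insert hq, Nat.mul_mod, ih (fun r hr => h r (Finset.mem_insert_of_mem hr)),
      h q (Finset.mem_insert_self q K)]

theorem Mn4 {Q P : Finset ℕ} (H : Dat Q P) : (Mn Q P : ℤ) % 4 = 1 := by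
  have h : Mn Q P % 4 = 1 := prod4 fun q hq => (H.pr q hq).2
  omega

/-- **the first Selmer set** -/
theorem selA {Q P : Finset ℕ} (H : Dat Q P) (hdet : ∀ J, Ker Q P J → J = ∅) {z : ℤ}
    (hz : Squarefree z) (hz0 : 0 < z)
    (h : ∀ (l : ℕ) [Fact l.Prime], PC (21 * (Mn Q P : ℤ)) (112 * (Mn Q P : ℤ) ^ 2) l z) :
    z = 1 ∨ z = 7 := by
  have key := frame H hdet (c1 := 21) (c2 := 112) (by
      intro q hq n2 n7 h0
      have h1 : q ∣ 2 ^ 4 * 7 := by exact_mod_cast h0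
      rcases (Nat.Prime.dvd_mul hq).1 h1 with h2 | h2
      · exact n2 ((Nat.prime_dvd_prime_iff_eq hq Nat.prime_two).1 (hq.dvd_of_dvd_pow h2))
      · exact n7 ((Nat.prime_dvd_prime_iff_eq hq (by norm_num)).1 h2)) (by
      intro p hp
      have : Fact p.Prime := ⟨(H.hP p hp).1⟩
      obtain ⟨s, hs⟩ := seven_sq (p := p) (H.hP p hp).2.1 (H.hP p hp).2.2
      refine ⟨4 * s, ?_⟩
      push_cast
      linear_combination 16 * hs) (by
      intro q hq M r hM hr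
      have f : Fact q.Prime := ⟨(H.hQ q hq).1⟩
      apply (H.hQ q hq).2.2
      refine ⟨(2 * r + 21 * M) / M, ?_⟩
      push_cast at hr
      field_simp
      linear_combination -4 * hr) (by
      intro p hp x hx
      have : Fact p.Prime := ⟨(H.hP p hp).1⟩
      exact root_a (H.hP p hp).2.1 (by push_cast at hx; exact hx)) hz
      (not_two (Mn4 H) hz (h 2)) h
  omega

/-- **the second Selmer set** -/
theorem selB {Q P : Finset ℕ} (H : Dat Q P) (hdet : ∀ J, Ker Q P J → J = ∅) {z : ℤ}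
    (hz : Squarefree z)
    (h : ∀ (l : ℕ) [Fact l.Prime], PC (-42 * (Mn Q P : ℤ)) (-7 * (Mn Q P : ℤ) ^ 2) l z) :
    z = 1 ∨ z = -7 := by
  have hM := Mn4 H
  have key := frame H hdet (c1 := -42) (c2 := -7) (by
      intro q hq n2 n7 h0
      have h1 : q ∣ 7 := by
        have h2 : (q : ℤ) ∣ 7 := (dvd_neg).1 h0
        exact_mod_cast h2
      exact n7 ((Nat.prime_dvd_prime_iff_eq hq (by norm_num)).1 h1)) (by
      intro p hp
      push_cast
      exact (H.hP p hp).2.2) (by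
      intro q hq M r hM hr
      have f : Fact q.Prime := ⟨(H.hQ q hq).1⟩
      have hq4 := (H.hQ q hq).2.1
      have q2 : q ≠ 2 := by rintro rfl; omega
      have h2 : (2 : ZMod q) ≠ 0 := by exact_mod_cast cast_ne0 (p := q) Nat.prime_two q2
      apply (H.hQ q hq).2.2
      obtain ⟨i, hi⟩ := neg_one_sq (p := q) hq4
      refine ⟨i * ((r - 21 * M) / (8 * M)), ?_⟩
      have h8 : (8 : ZMod q) ≠ 0 := by
        rw [show (8 : ZMod q) = 2 ^ 3 by norm_num]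
        exact pow_ne_zero 3 h2
      have e1 : ((r - 21 * M) / (8 * M)) * ((r - 21 * M) / (8 * M)) = 7 := by
        push_cast at hr
        rw [div_mul_div_comm, div_eq_iff (mul_ne_zero (mul_ne_zero h8 hM) (mul_ne_zero h8 hM))]
        linear_combination hr
      linear_combination 7 * hi - i * i * e1) (by
      intro p hp x hx
      have : Fact p.Prime := ⟨(H.hP p hp).1⟩
      have hp4 := (H.hP p hp).2.1
      refine root_b hp4 (H.hP p hp).2.2 ?_ (by rintro rfl; omega)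
      push_cast at hx
      linear_combination hx) hz
      (by
        have h1 := not_dvd_of_PC (l := 2) hz (by
          intro h0
          have h2 : ((2 : ℕ) : ℤ) ∣ 7 * (Mn Q P : ℤ) ^ 2 := by
            have := (dvd_neg).2 h0
            have e : -(-7 * (Mn Q P : ℤ) ^ 2) = 7 * (Mn Q P : ℤ) ^ 2 := by ring
            rwa [e] at this
          have h3 : (7 * (Mn Q P : ℤ) ^ 2) % 2 = 1 := by
            have h4 : (Mn Q P : ℤ) % 2 = 1 := by omega
            rw [Int.mul_emod, pow_two, Int.mul_emod (Mn Q P : ℤ), h4]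
            norm_num
          omega) (h 2)
        exact h1) h
  have e1 : z ≠ -1 := by
    rintro rfl
    exact not_m1 hM (h 2)
  have e2 : z ≠ 7 := by
    rintro rfl
    exact not_7 hM (h 2)
  omega

end Pool.Agent.X99.C49
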